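import Mathlib

/-! The Wijsman hyperspace and tactics in the strong Choquet game. -/

set_option autoImplicit false

namespace Pool.Agent.H251Z.Wij

universe u

/-- The family of nonempty closed subsets of `X`. -/
def CL (X : Type u) [TopologicalSpace X] : Type u := {A : Set X // IsClosed A ∧ A.Nonempty}

/-- The Wijsman topology of the metric of `X`: the weakest topology on the nonempty closed
subsets making every map `A ↦ d(x, A)` continuous. -/
@[reducible] noncomputable def wijsman (X : Type u) [MetricSpace X] : TopologicalSpace (CL X) :=
  ⨅ x : X, TopologicalSpace.induced (fun A : CL X => Metric.infDist x A.1) inferInstance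

/-- The second player has a winning stationary strategy in the strong Choquet game on `Y`:
a rule `t` that answers the last move `(y, U)` of the first player by an open set `t y U` with
`y ∈ t y U ⊆ U`, such that in every play following the rule the answers have a common point. -/
def StronglyAlphaFavorable (Y : Type u) (τ : TopologicalSpace Y) : Prop :=
  ∃ t : Y → Set Y → Set Y,
    (∀ (y : Y) (U : Set Y), τ.IsOpen U → y ∈ U → τ.IsOpen (t y U) ∧ y ∈ t y U ∧ t y U ⊆ U) ∧
    ∀ (y : ℕ → Y) (U : ℕ → Set Y), (∀ n, τ.IsOpen (U n) ∧ y n ∈ U n) →
      (∀ n, U (n + 1) ⊆ t (y n) (U n)) → (⋂ n, t (y n) (U n)).Nonempty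

end Pool.Agent.H251Z.Wij
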