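import Mathlib
import Pool.Agent.H251Z.WijDefs

/-! Pseudocomplete, subcompact and base-compact spaces. -/

set_option autoImplicit false

namespace Pool.Agent.H251Z.Wij

/-- A pi-base: a family of nonempty open sets such that every nonempty open set contains a member
of the family. -/
def IsPiBase {Y : Type} [TopologicalSpace Y] (𝔓 : Set (Set Y)) : Prop :=
  (∀ V ∈ 𝔓, IsOpen V ∧ V.Nonempty) ∧ ∀ U : Set Y, IsOpen U → U.Nonempty → ∃ V ∈ 𝔓, V ⊆ U

/-- Quasi-regular: every nonempty open set contains the closure of some nonempty open set. -/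
def QuasiRegular (Y : Type) [TopologicalSpace Y] : Prop :=
  ∀ U : Set Y, IsOpen U → U.Nonempty → ∃ V : Set Y, IsOpen V ∧ V.Nonempty ∧ closure V ⊆ U

/-- Pseudocomplete in the sense of Oxtoby. -/
def Pseudocomplete (Y : Type) [TopologicalSpace Y] : Prop :=
  QuasiRegular Y ∧ ∃ 𝔓 : ℕ → Set (Set Y), (∀ n, IsPiBase (𝔓 n)) ∧
    ∀ V : ℕ → Set Y, (∀ n, V n ∈ 𝔓 n) → (∀ n, closure (V (n + 1)) ⊆ V n) → (⋂ n, V n).Nonempty

/-- Subcompact in the sense of de Groot: regular, with an open base such that every regular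
filter base consisting of members of the base has nonempty intersection. -/
def Subcompact (Y : Type) [TopologicalSpace Y] : Prop :=
  RegularSpace Y ∧ ∃ 𝔅 : Set (Set Y), TopologicalSpace.IsTopologicalBasis 𝔅 ∧
    ∀ ℱ : Set (Set Y), ℱ ⊆ 𝔅 → ℱ.Nonempty → (∀ F ∈ ℱ, F.Nonempty) →
      (∀ F ∈ ℱ, ∀ G ∈ ℱ, ∃ K ∈ ℱ, K ⊆ F ∩ G) → (∀ F ∈ ℱ, ∃ G ∈ ℱ, closure G ⊆ F) →
      (⋂₀ ℱ).Nonempty

/-- Base-compact: regular, with an open base such that the closures of the members of every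
centered subfamily of the base have a common point. -/
def BaseCompact (Y : Type) [TopologicalSpace Y] : Prop :=
  RegularSpace Y ∧ ∃ 𝔅 : Set (Set Y), TopologicalSpace.IsTopologicalBasis 𝔅 ∧
    ∀ 𝒞 : Set (Set Y), 𝒞 ⊆ 𝔅 → (∀ t : Set (Set Y), t ⊆ 𝒞 → t.Finite → (⋂₀ t).Nonempty) →
      (⋂ C ∈ 𝒞, closure C).Nonempty

end Pool.Agent.H251Z.Wij
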