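import Mathlib

/-! A point-regular base with a shrinking relation in a completely metrizable space. -/

set_option autoImplicit false

namespace Pool.Agent.H251Z.Wij

open Set Filter Topology Metric

universe u

/-- A base of open sets, point-regular, with a shrinking relation forcing convergence. -/
structure GoodBase {X : Type u} [TopologicalSpace X] (𝔅 : Set (Set X))
    (R : Set X → Set X → Prop) : Prop where
  isOpen : ∀ W ∈ 𝔅, IsOpen W
  base : ∀ x O, IsOpen O → x ∈ O → ∃ W ∈ 𝔅, x ∈ W ∧ W ⊆ O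
  regular : ∀ x O, IsOpen O → x ∈ O → {W | W ∈ 𝔅 ∧ x ∈ W ∧ ¬ W ⊆ O}.Finite
  shrink : ∀ W ∈ 𝔅, ∀ x ∈ W, ∃ W' ∈ 𝔅, x ∈ W' ∧ R W' W
  conv : ∀ (W : ℕ → Set X) (a : ℕ → X), (∀ n, R (W (n + 1)) (W n)) → (∀ n, a n ∈ W n) →
    ∃ p ∈ W 0, Tendsto a atTop (𝓝 p)

theorem exists_goodBase_aux (X : Type u) [MetricSpace X] [CompleteSpace X] :
    ∃ (𝔅 : Set (Set X)) (R : Set X → Set X → Prop), GoodBase 𝔅 R := by
  have h : ∀ n : ℕ, ∃ v : X → Set X, (∀ a, IsOpen (v a)) ∧ ⋃ i, v i = univ ∧ LocallyFinite v ∧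
      ∀ a, v a ⊆ ball a (1 / ((n : ℝ) + 1)) := fun n =>
    precise_refinement (fun a => ball a (1 / ((n : ℝ) + 1))) (fun _ => isOpen_ball)
      (eq_univ_of_forall fun a => mem_iUnion.2 ⟨a, mem_ball_self (by positivity)⟩)
  choose v hvo hvc hvf hvs using h
  have hsmall : ∀ x O, IsOpen O → x ∈ O → ∃ N : ℕ, ∀ n ≥ N, ∀ y, x ∈ v n y → v n y ⊆ O := by
    intro x O hO hx
    obtain ⟨ε, hε, hb⟩ := Metric.isOpen_iff.1 hO x hx
    obtain ⟨N, hN⟩ := exists_nat_one_div_lt (half_pos hε)
    refine ⟨N, fun n hn y hy z hz => hb ?_⟩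
    have h1 := hvs n y hy
    have h2 := hvs n y hz
    rw [mem_ball] at h1 h2 ⊢
    have h3 : 1 / ((n : ℝ) + 1) ≤ 1 / ((N : ℝ) + 1) := Nat.one_div_le_one_div hn
    have := dist_triangle_right z x y
    linarith
  have hbase : ∀ x O, IsOpen O → x ∈ O → ∃ W ∈ {W | ∃ n y, W = v n y}, x ∈ W ∧ W ⊆ O := by
    intro x O hO hx
    obtain ⟨N, hN⟩ := hsmall x O hO hx
    have : x ∈ ⋃ i, v N i := by rw [hvc]; trivial
    obtain ⟨y, hy⟩ := mem_iUnion.1 this
    exact ⟨v N y, ⟨N, y, rfl⟩, hy, hN N le_rfl y hy⟩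
  refine ⟨{W | ∃ n y, W = v n y},
    fun W' W => closure W' ⊆ W ∧ ediam W' ≤ min 1 (ediam W) / 2, ?_, hbase, ?_, ?_, ?_⟩
  · rintro _ ⟨n, y, rfl⟩
    exact hvo n y
  · intro x O hO hx
    obtain ⟨N, hN⟩ := hsmall x O hO hx
    refine ((finite_lt_nat N).biUnion
      (fun n _ => ((hvf n).point_finite x).image (v n))).subset ?_
    rintro _ ⟨⟨n, y, rfl⟩, h1, h2⟩
    refine mem_biUnion (show n ∈ {i | i < N} from ?_) ⟨y, h1, rfl⟩
    by_contra hc
    exact h2 (hN n (not_lt.1 hc) y h1)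
  · intro W hW x hx
    have hWo : IsOpen W := by
      obtain ⟨n, y, rfl⟩ := hW
      exact hvo n y
    by_cases h0 : ediam W = 0
    · refine ⟨W, hW, hx, ?_, by simp [h0]⟩
      have hs : W.Subsingleton := ediam_eq_zero_iff.1 h0
      rw [hs.isClosed.closure_eq]
    · obtain ⟨ε, hε, hb⟩ := Metric.isOpen_iff.1 hWo x hx
      have hpos : 0 < min 1 (ediam W) / 2 / 2 := by
        have h1 : 0 < min 1 (ediam W) := lt_min one_pos (pos_iff_ne_zero.2 h0)
        exact ENNReal.half_pos (ENNReal.half_pos h1.ne').ne'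
      obtain ⟨W', hW', hx', hsub⟩ := hbase x (ball x (ε / 2) ∩ eball x (min 1 (ediam W) / 2 / 2))
        (isOpen_ball.inter isOpen_eball) ⟨mem_ball_self (half_pos hε), mem_eball_self hpos⟩
      refine ⟨W', hW', hx', ?_, ?_⟩
      · refine (closure_mono (hsub.trans inter_subset_left)).trans ?_
        exact closure_ball_subset_closedBall.trans
          ((closedBall_subset_ball (half_lt_self hε)).trans hb)
      · refine (ediam_mono (hsub.trans inter_subset_right)).trans (ediam_eball_le.trans ?_)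
        rw [two_mul, ENNReal.add_halves]
  · intro W a hR ha
    have hmono : ∀ n, W (n + 1) ⊆ W n := fun n => subset_closure.trans (hR n).1
    have hanti : Antitone W := antitone_nat_of_succ_le hmono
    have hd : ∀ n, ediam (W (n + 1)) ≤ 1 / 2 ^ n := by
      intro n
      induction n with
      | zero =>
        refine (hR 0).2.trans (ENNReal.half_le_self.trans ?_)
        simp
      | succ n ih =>
        refine (hR (n + 1)).2.trans ?_
        refine (ENNReal.div_le_div_right ((min_le_right _ _).trans ih) 2).trans (le_of_eq ?_)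
        rw [pow_succ, one_div, one_div, ENNReal.mul_inv (by simp) (by simp), div_eq_mul_inv]
    have hc : CauchySeq (fun n => a (n + 1)) := by
      refine cauchySeq_of_edist_le_geometric_two 1 ENNReal.one_ne_top fun n => ?_
      exact (edist_le_ediam_of_mem (ha (n + 1)) (hmono _ (ha (n + 2)))).trans (hd n)
    obtain ⟨p, hp⟩ := cauchySeq_tendsto_of_complete hc
    refine ⟨p, (hR 0).1 (mem_closure_of_tendsto hp (Eventually.of_forall fun n => ?_)),
      (tendsto_add_atTop_iff_nat 1).1 hp⟩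
    exact hanti (by omega : 1 ≤ n + 1) (ha (n + 1))

theorem exists_goodBase (X : Type u) [TopologicalSpace X]
    [TopologicalSpace.IsCompletelyMetrizableSpace X] :
    ∃ (𝔅 : Set (Set X)) (R : Set X → Set X → Prop), GoodBase 𝔅 R := by
  let := TopologicalSpace.upgradeIsCompletelyMetrizable X
  exact exists_goodBase_aux X

end Pool.Agent.H251Z.Wij
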