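import Mathlib
import Pool.Agent.H251Z.WijDefs
import Pool.Agent.H251Z.WijBase

/-! The Wijsman hyperspace of a completely metrizable space is strongly alpha-favorable. -/

set_option autoImplicit false

namespace Pool.Agent.H251Z.Wij

open Set Filter Topology Metric

universe u

variable {X : Type u} [MetricSpace X]

theorem cont_infDist (x : X) :
    Continuous[wijsman X, inferInstance] (fun A : CL X => infDist x A.1) :=
  continuous_iInf_dom (i := x) continuous_induced_dom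

theorem isOpen_gt (x : X) (r : ℝ) : IsOpen[wijsman X] {B : CL X | r < infDist x B.1} := by
  let := wijsman X
  exact isOpen_lt continuous_const (cont_infDist x)

theorem isOpen_lt' (x : X) (r : ℝ) : IsOpen[wijsman X] {B : CL X | infDist x B.1 < r} := by
  let := wijsman X
  exact isOpen_lt (cont_infDist x) continuous_const

theorem isOpen_hit {W : Set X} (hW : IsOpen W) :
    IsOpen[wijsman X] {B : CL X | (B.1 ∩ W).Nonempty} := by
  let := wijsman X
  rw [isOpen_iff_forall_mem_open]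
  rintro B ⟨b, hb, hbW⟩
  obtain ⟨ε, hε, hs⟩ := Metric.isOpen_iff.1 hW b hbW
  refine ⟨{C : CL X | infDist b C.1 < ε}, ?_, isOpen_lt' b ε, ?_⟩
  · intro C hC
    obtain ⟨c, hc, hd⟩ := (infDist_lt_iff C.2.2).1 hC
    exact ⟨c, hc, hs (by rwa [mem_ball, dist_comm])⟩
  · show infDist b B.1 < ε
    rw [infDist_zero_of_mem hb]
    exact hε

theorem basic_nhds {U : Set (CL X)} (hU : IsOpen[wijsman X] U) {A : CL X} (hA : A ∈ U) :
    ∃ (I : Set X) (ε : ℝ), I.Finite ∧ 0 < ε ∧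
      ∀ B : CL X, (∀ x ∈ I, |infDist x B.1 - infDist x A.1| < ε) → B ∈ U := by
  let F : Filter (CL X) :=
    { sets := {U | ∃ (I : Set X) (ε : ℝ), I.Finite ∧ 0 < ε ∧
        ∀ B : CL X, (∀ x ∈ I, |infDist x B.1 - infDist x A.1| < ε) → B ∈ U}
      univ_sets := ⟨∅, 1, finite_empty, one_pos, fun _ _ => trivial⟩
      sets_of_superset := by
        rintro s t ⟨I, ε, h1, h2, h3⟩ hst
        exact ⟨I, ε, h1, h2, fun B hB => hst (h3 B hB)⟩
      inter_sets := by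
        rintro s t ⟨I, ε, h1, h2, h3⟩ ⟨J, δ, k1, k2, k3⟩
        exact ⟨I ∪ J, min ε δ, h1.union k1, lt_min h2 k2, fun B hB =>
          ⟨h3 B fun x hx => (hB x (Or.inl hx)).trans_le (min_le_left _ _),
            k3 B fun x hx => (hB x (Or.inr hx)).trans_le (min_le_right _ _)⟩⟩ }
  have hle : F ≤ @nhds _ (wijsman X) A := by
    unfold wijsman
    rw [nhds_iInf]
    refine le_iInf fun x => ?_
    rw [nhds_induced]
    rintro s ⟨t, ht, hts⟩
    obtain ⟨ε, hε, hb⟩ := Metric.mem_nhds_iff.1 ht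
    exact ⟨{x}, ε, finite_singleton x, hε, fun B hB => hts (hb (hB x rfl))⟩
  exact hle (@IsOpen.mem_nhds _ (wijsman X) _ _ hU hA)

theorem infDist_le_of_near {A B : Set X} (hB : B.Nonempty) {δ : ℝ}
    (h : ∀ b ∈ B, ∃ a ∈ A, dist a b ≤ δ) (x : X) : infDist x A ≤ infDist x B + δ := by
  have : infDist x A - δ ≤ infDist x B := by
    refine (le_infDist hB).2 fun b hb => ?_
    obtain ⟨a, ha, hd⟩ := h b hb
    have h1 := infDist_le_dist_of_mem (x := x) ha
    have h2 := dist_triangle_right x a b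
    linarith
  linarith

theorem exists_avoid {U : Set (CL X)} (hU : IsOpen[wijsman X] U) {A : CL X} (hA : A ∈ U)
    {p : X} (hp : ¬ IsOpen ({p} : Set X)) : ∃ B ∈ U, p ∉ B.1 := by
  by_cases hpA : p ∈ A.1
  swap
  · exact ⟨A, hA, hpA⟩
  obtain ⟨I, ε, -, hε, hB⟩ := basic_nhds hU hA
  obtain ⟨q, hq, hqp⟩ : ∃ q ∈ ball p (ε / 4), q ≠ p := by
    by_contra hc
    push Not at hc
    apply hp
    have : ({p} : Set X) = ball p (ε / 4) :=
      Subset.antisymm (singleton_subset_iff.2 (mem_ball_self (by positivity))) hc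
    rw [this]
    exact isOpen_ball
  let B : CL X := ⟨(A.1 ∩ (ball p (ε / 4))ᶜ) ∪ {q},
    (A.2.1.inter isOpen_ball.isClosed_compl).union isClosed_singleton, ⟨q, Or.inr rfl⟩⟩
  rw [mem_ball] at hq
  refine ⟨B, hB B fun x _ => ?_, ?_⟩
  · have h1 : infDist x A.1 ≤ infDist x B.1 + ε / 2 := by
      refine infDist_le_of_near B.2.2 ?_ x
      rintro b (⟨hb, -⟩ | rfl)
      · exact ⟨b, hb, by rw [dist_self]; positivity⟩
      · exact ⟨p, hpA, by rw [dist_comm]; linarith⟩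
    have h2 : infDist x B.1 ≤ infDist x A.1 + ε / 2 := by
      refine infDist_le_of_near A.2.2 ?_ x
      intro a ha
      by_cases hb : a ∈ ball p (ε / 4)
      · refine ⟨q, Or.inr rfl, ?_⟩
        rw [mem_ball] at hb
        have := dist_triangle_right q a p
        linarith
      · exact ⟨a, Or.inl ⟨ha, hb⟩, by rw [dist_self]; positivity⟩
    rw [abs_lt]
    constructor <;> linarith
  · rintro (⟨-, h⟩ | h)
    · exact h (mem_ball_self (by positivity))
    · exact hqp (mem_singleton_iff.1 h).symm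

/-- The members of the base that are hit by every member of `U`. -/
def H (𝔅 : Set (Set X)) (U : Set (CL X)) : Set (Set X) :=
  {W | W ∈ 𝔅 ∧ ∀ B ∈ U, (B.1 ∩ W).Nonempty}

theorem H_anti {𝔅 : Set (Set X)} {U V : Set (CL X)} (h : U ⊆ V) : H 𝔅 V ⊆ H 𝔅 U :=
  fun _ hW => ⟨hW.1, fun B hB => hW.2 B (h hB)⟩

theorem H_finite {𝔅 : Set (Set X)} {R : Set X → Set X → Prop} (hb : GoodBase 𝔅 R)
    {U : Set (CL X)} (hU : IsOpen[wijsman X] U) {A : CL X} (hA : A ∈ U) : (H 𝔅 U).Finite := by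
  have hpt : ∀ p : X, {W | W ∈ H 𝔅 U ∧ p ∈ W}.Finite := by
    intro p
    by_cases hp : IsOpen ({p} : Set X)
    · refine ((hb.regular p {p} hp rfl).union (finite_singleton p).finite_subsets).subset ?_
      rintro W ⟨hW, hpW⟩
      by_cases hs : W ⊆ {p}
      · exact Or.inr hs
      · exact Or.inl ⟨hW.1, hpW, hs⟩
    · obtain ⟨B, hB, hpB⟩ := exists_avoid hU hA hp
      refine (hb.regular p B.1ᶜ B.2.1.isOpen_compl hpB).subset ?_
      rintro W ⟨hW, hpW⟩
      refine ⟨hW.1, hpW, fun hs => ?_⟩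
      obtain ⟨z, hz1, hz2⟩ := hW.2 B hB
      exact hs hz2 hz1
  obtain ⟨I, ε, hI, hε, hB⟩ := basic_nhds hU hA
  have hex : ∀ x : X, ∃ a ∈ A.1, dist x a < infDist x A.1 + ε := fun x =>
    (infDist_lt_iff A.2.2).1 (by linarith)
  choose a ha hd using hex
  obtain ⟨a0, ha0⟩ := A.2.2
  have hfin : (insert a0 (a '' I)).Finite := (hI.image a).insert a0
  let F : CL X := ⟨insert a0 (a '' I), hfin.isClosed, insert_nonempty _ _⟩
  have hFA : F.1 ⊆ A.1 := by
    rintro _ (rfl | ⟨x, -, rfl⟩)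
    · exact ha0
    · exact ha x
  have hF : F ∈ U := by
    refine hB F fun x hx => ?_
    have h1 : infDist x A.1 ≤ infDist x F.1 := infDist_le_infDist_of_subset hFA F.2.2
    have h2 : infDist x F.1 ≤ dist x (a x) := infDist_le_dist_of_mem (Or.inr ⟨x, hx, rfl⟩)
    have := hd x
    rw [abs_lt]
    constructor <;> linarith
  refine (hfin.biUnion (fun p _ => hpt p)).subset ?_
  intro W hW
  obtain ⟨p, hp1, hp2⟩ := hW.2 F hF
  exact mem_biUnion hp1 ⟨hW, hp2⟩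

theorem exists_answer {𝔅 : Set (Set X)} {R : Set X → Set X → Prop} (hb : GoodBase 𝔅 R)
    (A : CL X) (U : Set (CL X)) (hU : IsOpen[wijsman X] U) (hA : A ∈ U) :
    ∃ V : Set (CL X), (IsOpen[wijsman X] V ∧ A ∈ V ∧ V ⊆ U) ∧
      (∀ W ∈ H 𝔅 U, ∃ W' ∈ H 𝔅 V, R W' W) ∧ (H 𝔅 V).Nonempty ∧
      ∀ C : CL X, (∀ W ∈ H 𝔅 V, (C.1 ∩ W).Nonempty) →
        (∀ x r, (∀ B ∈ V, r ≤ infDist x B.1) → r ≤ infDist x C.1) → C ∈ U := by
  let := wijsman X
  obtain ⟨I0, ε, hI0, hε, hB0⟩ := basic_nhds hU hA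
  obtain ⟨a0, ha0⟩ := A.2.2
  set I := insert a0 I0 with hIdef
  have hI : I.Finite := hI0.insert a0
  have hB : ∀ B : CL X, (∀ x ∈ I, |infDist x B.1 - infDist x A.1| < ε) → B ∈ U :=
    fun B h => hB0 B fun x hx => h x (Or.inr hx)
  have hex : ∀ x : X, ∃ W ∈ 𝔅, (A.1 ∩ W).Nonempty ∧ W ⊆ ball x (infDist x A.1 + ε) := by
    intro x
    obtain ⟨a, ha, hd⟩ := (infDist_lt_iff (x := x) (r := infDist x A.1 + ε) A.2.2).1 (by linarith)
    obtain ⟨W, hW, h1, h2⟩ := hb.base a _ isOpen_ball (mem_ball'.2 hd)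
    exact ⟨W, hW, ⟨a, ha, h1⟩, h2⟩
  choose w hw1 hw2 hw3 using hex
  have hsh : ∀ W ∈ H 𝔅 U, ∃ W' ∈ 𝔅, (A.1 ∩ W').Nonempty ∧ R W' W := by
    intro W hW
    obtain ⟨a, ha, haW⟩ := hW.2 A hA
    obtain ⟨W', h1, h2, h3⟩ := hb.shrink W hW.1 a haW
    exact ⟨W', h1, ⟨a, ha, h2⟩, h3⟩
  choose! s hs1 hs2 hs3 using hsh
  set V : Set (CL X) :=
    (⋂ x ∈ I, ({B : CL X | infDist x A.1 - ε / 2 < infDist x B.1} ∩
      {B : CL X | (B.1 ∩ w x).Nonempty})) ∩
    ⋂ W ∈ H 𝔅 U, {B : CL X | (B.1 ∩ s W).Nonempty} with hV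
  have hV1 : ∀ B ∈ V, ∀ x ∈ I, infDist x A.1 - ε / 2 < infDist x B.1 :=
    fun B hB x hx => ((mem_iInter₂.1 hB.1) x hx).1
  have hV2 : ∀ x ∈ I, w x ∈ H 𝔅 V :=
    fun x hx => ⟨hw1 x, fun B hB => ((mem_iInter₂.1 hB.1) x hx).2⟩
  have hfinal : ∀ C : CL X, (∀ W ∈ H 𝔅 V, (C.1 ∩ W).Nonempty) →
      (∀ x r, (∀ B ∈ V, r ≤ infDist x B.1) → r ≤ infDist x C.1) → C ∈ U := by
    intro C h1 h2
    refine hB C fun x hx => ?_
    obtain ⟨c, hc, hcw⟩ := h1 _ (hV2 x hx)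
    have k1 := mem_ball'.1 (hw3 x hcw)
    have k2 := infDist_le_dist_of_mem (x := x) hc
    have k3 := h2 x (infDist x A.1 - ε / 2) fun B hB => (hV1 B hB x hx).le
    rw [abs_lt]
    constructor <;> linarith
  refine ⟨V, ⟨?_, ?_, ?_⟩, ?_, ⟨w a0, hV2 a0 (Or.inl rfl)⟩, hfinal⟩
  · refine IsOpen.inter (hI.isOpen_biInter fun x _ => ?_)
      ((H_finite hb hU hA).isOpen_biInter fun W hW => isOpen_hit (hb.isOpen _ (hs1 W hW)))
    exact (isOpen_gt x _).inter (isOpen_hit (hb.isOpen _ (hw1 x)))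
  · refine ⟨mem_iInter₂.2 fun x _ => ⟨?_, hw2 x⟩, mem_iInter₂.2 fun W hW => hs2 W hW⟩
    show infDist x A.1 - ε / 2 < infDist x A.1
    linarith
  · intro C hC
    exact hfinal C (fun W hW => hW.2 C hC) (fun x r h => h C hC)
  · intro W hW
    exact ⟨s W, ⟨hs1 W hW, fun B hB => (mem_iInter₂.1 hB.2) W hW⟩, hs3 W hW⟩

theorem main (X : Type u) [MetricSpace X] [TopologicalSpace.IsCompletelyMetrizableSpace X] :
    StronglyAlphaFavorable (CL X) (wijsman X) := by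
  obtain ⟨𝔅, R, hb⟩ := exists_goodBase X
  choose! t ht1 ht2 ht3 ht4 using exists_answer hb
  refine ⟨t, fun A U hU hA => ht1 A U hU hA, ?_⟩
  intro A U hAU hUV
  set V : ℕ → Set (CL X) := fun n => t (A n) (U n) with hV
  have hVU : ∀ n, V n ⊆ U n := fun n => (ht1 _ _ (hAU n).1 (hAU n).2).2.2
  have hUanti : Antitone U := antitone_nat_of_succ_le fun n => (hUV n).trans (hVU n)
  let C0 : Set X := {p | ∀ (n : ℕ) (x : X) (r : ℝ), (∀ B ∈ V n, r ≤ infDist x B.1) → r ≤ dist x p}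
  have hC0 : IsClosed C0 := by
    simp only [C0, Set.ofPred_forall]
    exact isClosed_iInter fun n => isClosed_iInter fun x => isClosed_iInter fun r =>
      isClosed_iInter fun _ => isClosed_le continuous_const (by fun_prop)
  have hthread : ∀ n, ∀ W ∈ H 𝔅 (U n), (C0 ∩ W).Nonempty := by
    intro n W hW
    have hstep : ∀ k (W : H 𝔅 (U (n + k))), ∃ W' : H 𝔅 (U (n + (k + 1))), R W'.1 W.1 := by
      intro k W
      obtain ⟨W', h1, h2⟩ := ht2 _ _ (hAU (n + k)).1 (hAU (n + k)).2 W.1 W.2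
      exact ⟨⟨W', H_anti (hUV (n + k)) h1⟩, h2⟩
    choose f hf using hstep
    let g : ∀ k, H 𝔅 (U (n + k)) := fun k => Nat.rec (motive := fun k => H 𝔅 (U (n + k)))
      ⟨W, hW⟩ (fun k W => f k W) k
    have hpt : ∀ k, ∃ a ∈ (A (n + k)).1, a ∈ (g k).1 := fun k => (g k).2.2 _ (hAU (n + k)).2
    choose a ha1 ha2 using hpt
    obtain ⟨p, hp, hlim⟩ := hb.conv (fun k => (g k).1) a (fun k => hf k (g k)) ha2
    refine ⟨p, fun m x r h => ?_, hp⟩
    refine ge_of_tendsto (tendsto_const_nhds.dist hlim) ?_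
    filter_upwards [eventually_ge_atTop (m + 1)] with k hk
    have hmem : A (n + k) ∈ V m := hUV m (hUanti (by omega : m + 1 ≤ n + k) (hAU (n + k)).2)
    exact (h _ hmem).trans (infDist_le_dist_of_mem (ha1 k))
  have hne : C0.Nonempty := by
    obtain ⟨W, hW⟩ := ht3 _ _ (hAU 0).1 (hAU 0).2
    exact (hthread 1 W (H_anti (hUV 0) hW)).mono inter_subset_left
  let C : CL X := ⟨C0, hC0, hne⟩
  have hCU : ∀ n, C ∈ U n := by
    intro n
    refine ht4 _ _ (hAU n).1 (hAU n).2 C (fun W hW => hthread (n + 1) W (H_anti (hUV n) hW)) ?_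
    intro x r h
    exact (le_infDist hne).2 fun p hp => hp n x r h
  exact ⟨C, mem_iInter.2 fun n => hUV n (hCU (n + 1))⟩

end Pool.Agent.H251Z.Wij
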