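import Mathlib
import Pool.Agent.H251Z.WijMain
import Pool.Agent.H251Z.CJDefs

/-! Basic open sets of the Wijsman hyperspace. -/

set_option autoImplicit false

namespace Pool.Agent.H251Z.Wij

open Set Filter Topology Metric

variable {X : Type} [MetricSpace X]

attribute [local instance] wijsman

theorem regular_wijsman : RegularSpace (CL X) :=
  regularSpace_iInf fun _ => regularSpace_induced _

/-- The points satisfying the constraints. -/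
def OJ (J : Set (X × ℝ)) : Set X := {q | ∀ j ∈ J, j.2 < dist j.1 q}

/-- The basic open set with hits `𝓗` and constraints `J`. -/
def BS (𝓗 : Set (Set X)) (J : Set (X × ℝ)) : Set (CL X) :=
  {A | (∀ W ∈ 𝓗, (A.1 ∩ W).Nonempty) ∧ ∀ j ∈ J, j.2 < infDist j.1 A.1}

/-- Admissible data. -/
structure Adm (𝓗 : Set (Set X)) (J : Set (X × ℝ)) : Prop where
  finH : 𝓗.Finite
  finJ : J.Finite
  ne : 𝓗.Nonempty
  op : ∀ W ∈ 𝓗, IsOpen W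
  neW : ∀ W ∈ 𝓗, W.Nonempty
  sub : ∀ W ∈ 𝓗, W ⊆ OJ J

theorem isOpen_OJ {J : Set (X × ℝ)} (hJ : J.Finite) : IsOpen (OJ J) := by
  have : OJ J = ⋂ j ∈ J, {q | j.2 < dist j.1 q} := by
    ext q
    simp [OJ]
  rw [this]
  exact hJ.isOpen_biInter fun j _ => isOpen_lt continuous_const (by fun_prop)

theorem isOpen_BS {𝓗 : Set (Set X)} {J : Set (X × ℝ)} (h : Adm 𝓗 J) : IsOpen (BS 𝓗 J) := by
  have : BS 𝓗 J = (⋂ W ∈ 𝓗, {A : CL X | (A.1 ∩ W).Nonempty}) ∩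
      ⋂ j ∈ J, {A : CL X | j.2 < infDist j.1 A.1} := by
    ext A
    simp [BS]
  rw [this]
  exact (h.finH.isOpen_biInter fun W hW => isOpen_hit (h.op W hW)).inter
    (h.finJ.isOpen_biInter fun j _ => isOpen_gt _ _)

theorem fin_mem {𝓗 : Set (Set X)} {J : Set (X × ℝ)} (F : CL X) (hF : F.1.Finite)
    (h1 : F.1 ⊆ OJ J) (h2 : ∀ W ∈ 𝓗, (F.1 ∩ W).Nonempty) : F ∈ BS 𝓗 J := by
  refine ⟨h2, fun j hj => ?_⟩
  obtain ⟨y, hy, e⟩ := hF.isCompact.exists_infDist_eq_dist F.2.2 j.1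
  rw [e]
  exact h1 hy j hj

theorem mem_OJ_of_mem_BS {𝓗 : Set (Set X)} {J : Set (X × ℝ)} {A : CL X} (hA : A ∈ BS 𝓗 J) :
    A.1 ⊆ OJ J := fun _ ha j hj => (hA.2 j hj).trans_le (infDist_le_dist_of_mem ha)

theorem key_closure {𝓗 : Set (Set X)} {J : Set (X × ℝ)} (h : Adm 𝓗 J) (C : CL X)
    (h1 : C.1 ⊆ closure (OJ J)) (h2 : ∀ W ∈ 𝓗, (C.1 ∩ closure W).Nonempty) :
    C ∈ closure (BS 𝓗 J) := by
  rw [_root_.mem_closure_iff]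
  intro U hU hC
  obtain ⟨I, ε, hI, hε, hB⟩ := basic_nhds hU hC
  have hex : ∀ x : X, ∃ c' ∈ OJ J, dist x c' < infDist x C.1 + ε ∧ ∃ c ∈ C.1, dist c c' ≤ ε / 2 := by
    intro x
    obtain ⟨c, hc, hd⟩ := (infDist_lt_iff (x := x) (r := infDist x C.1 + ε / 2) C.2.2).1
      (by linarith)
    obtain ⟨c', hc', hd'⟩ := Metric.mem_closure_iff.1 (h1 hc) (ε / 2) (half_pos hε)
    refine ⟨c', hc', ?_, c, hc, hd'.le⟩
    have := dist_triangle x c c'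
    linarith
  choose a ha1 ha2 ha3 using hex
  have hex2 : ∀ W ∈ 𝓗, ∃ c' ∈ W, ∃ c ∈ C.1, dist c c' ≤ ε / 2 := by
    intro W hW
    obtain ⟨c, hc, hcW⟩ := h2 W hW
    obtain ⟨c', hc', hd'⟩ := Metric.mem_closure_iff.1 hcW (ε / 2) (half_pos hε)
    exact ⟨c', hc', c, hc, hd'.le⟩
  obtain ⟨c0, -⟩ := C.2.2
  have : Nonempty X := ⟨c0⟩
  choose! b hb1 hb2 using hex2
  have hfin : (a '' I ∪ b '' 𝓗).Finite := (hI.image a).union (h.finH.image b)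
  let F : CL X := ⟨a '' I ∪ b '' 𝓗, hfin.isClosed, (h.ne.image b).mono subset_union_right⟩
  refine ⟨F, hB F fun x hx => ?_, fin_mem F hfin ?_ ?_⟩
  · have k1 : infDist x F.1 ≤ dist x (a x) := infDist_le_dist_of_mem (Or.inl ⟨x, hx, rfl⟩)
    have k2 : infDist x C.1 ≤ infDist x F.1 + ε / 2 := by
      refine infDist_le_of_near F.2.2 ?_ x
      rintro _ (⟨y, -, rfl⟩ | ⟨W, hW, rfl⟩)
      · exact ha3 y
      · exact hb2 W hW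
    have := ha2 x
    rw [abs_lt]
    constructor <;> linarith
  · rintro _ (⟨y, -, rfl⟩ | ⟨W, hW, rfl⟩)
    · exact ha1 y
    · exact h.sub W hW (hb1 W hW)
  · intro W hW
    exact ⟨b W, Or.inr ⟨W, hW, rfl⟩, hb1 W hW⟩

theorem exists_hit_closure {𝓗 : Set (Set X)} {J : Set (X × ℝ)} (h : Adm 𝓗 J) {W : Set X}
    (hW : ∀ A ∈ closure (BS 𝓗 J), (A.1 ∩ W).Nonempty) : ∃ W' ∈ 𝓗, closure W' ⊆ W := by
  by_contra hc
  push Not at hc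
  have hex : ∀ W' ∈ 𝓗, ∃ q ∈ closure W', q ∉ W := fun W' hW' => not_subset.1 (hc W' hW')
  obtain ⟨W0, hW0⟩ := h.ne
  obtain ⟨c0, -⟩ := h.neW W0 hW0
  have : Nonempty X := ⟨c0⟩
  choose! q hq1 hq2 using hex
  have hfin : (q '' 𝓗).Finite := h.finH.image q
  let F : CL X := ⟨q '' 𝓗, hfin.isClosed, h.ne.image q⟩
  obtain ⟨_, ⟨W', hW', rfl⟩, hz⟩ := hW F (key_closure h F (by
    rintro _ ⟨W', hW', rfl⟩
    exact closure_mono (h.sub W' hW') (hq1 W' hW'))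
    (fun W' hW' => ⟨q W', ⟨W', hW', rfl⟩, hq1 W' hW'⟩))
  exact hq2 W' hW' hz

theorem exists_hit {𝓗 : Set (Set X)} {J : Set (X × ℝ)} (h : Adm 𝓗 J) {W : Set X}
    (hW : ∀ A ∈ BS 𝓗 J, (A.1 ∩ W).Nonempty) : ∃ W' ∈ 𝓗, W' ⊆ W := by
  by_contra hc
  push Not at hc
  have hex : ∀ W' ∈ 𝓗, ∃ q ∈ W', q ∉ W := fun W' hW' => not_subset.1 (hc W' hW')
  obtain ⟨W0, hW0⟩ := h.ne
  obtain ⟨c0, -⟩ := h.neW W0 hW0
  have : Nonempty X := ⟨c0⟩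
  choose! q hq1 hq2 using hex
  have hfin : (q '' 𝓗).Finite := h.finH.image q
  let F : CL X := ⟨q '' 𝓗, hfin.isClosed, h.ne.image q⟩
  obtain ⟨_, ⟨W', hW', rfl⟩, hz⟩ := hW F (fin_mem F hfin (by
    rintro _ ⟨W', hW', rfl⟩
    exact h.sub W' hW' (hq1 W' hW'))
    (fun W' hW' => ⟨q W', ⟨W', hW', rfl⟩, hq1 W' hW'⟩))
  exact hq2 W' hW' hz

theorem exists_mem_BS {𝓗 : Set (Set X)} {J : Set (X × ℝ)} (h : Adm 𝓗 J) {p : X}
    (hp : p ∈ OJ J) : ∃ A ∈ BS 𝓗 J, p ∈ A.1 := by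
  have : Nonempty X := ⟨p⟩
  choose! q hq using h.neW
  have hfin : (insert p (q '' 𝓗)).Finite := (h.finH.image q).insert p
  let F : CL X := ⟨insert p (q '' 𝓗), hfin.isClosed, insert_nonempty _ _⟩
  refine ⟨F, fin_mem F hfin ?_ (fun W hW => ⟨q W, Or.inr ⟨W, hW, rfl⟩, hq W hW⟩), Or.inl rfl⟩
  rintro _ (rfl | ⟨W, hW, rfl⟩)
  · exact hp
  · exact h.sub W hW (hq W hW)

theorem BS_nonempty {𝓗 : Set (Set X)} {J : Set (X × ℝ)} (h : Adm 𝓗 J) : (BS 𝓗 J).Nonempty := by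
  obtain ⟨W0, hW0⟩ := h.ne
  obtain ⟨c0, hc0⟩ := h.neW W0 hW0
  obtain ⟨A, hA, -⟩ := exists_mem_BS h (h.sub W0 hW0 hc0)
  exact ⟨A, hA⟩

theorem OJ_mono {𝓗 𝓗' : Set (Set X)} {J J' : Set (X × ℝ)} (h : Adm 𝓗' J')
    (hs : BS 𝓗' J' ⊆ BS 𝓗 J) : OJ J' ⊆ OJ J := by
  intro p hp
  obtain ⟨A, hA, hpA⟩ := exists_mem_BS h hp
  exact mem_OJ_of_mem_BS (hs hA) hpA

theorem exists_BS {𝔚 : Set (Set X)} (ho : ∀ W ∈ 𝔚, IsOpen W)
    (hb : ∀ x O, IsOpen O → x ∈ O → ∃ W ∈ 𝔚, x ∈ W ∧ W ⊆ O)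
    {U : Set (CL X)} (hU : IsOpen U) {A : CL X} (hA : A ∈ U) :
    ∃ 𝓗 J, Adm 𝓗 J ∧ 𝓗 ⊆ 𝔚 ∧ A ∈ BS 𝓗 J ∧ BS 𝓗 J ⊆ U := by
  obtain ⟨I0, ε, hI0, hε, hB0⟩ := basic_nhds hU hA
  obtain ⟨a0, ha0⟩ := A.2.2
  set I := insert a0 I0 with hIdef
  have hI : I.Finite := hI0.insert a0
  set J : Set (X × ℝ) := (fun x => (x, infDist x A.1 - ε)) '' I with hJ
  have hJf : J.Finite := hI.image _
  have hAO : A.1 ⊆ OJ J := by
    rintro a ha _ ⟨x, -, rfl⟩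
    have := infDist_le_dist_of_mem (x := x) ha
    show infDist x A.1 - ε < dist x a
    linarith
  have hex : ∀ x : X, ∃ W ∈ 𝔚, (A.1 ∩ W).Nonempty ∧ W ⊆ ball x (infDist x A.1 + ε) ∩ OJ J := by
    intro x
    obtain ⟨a, ha, hd⟩ := (infDist_lt_iff (x := x) (r := infDist x A.1 + ε) A.2.2).1 (by linarith)
    obtain ⟨W, hW, h1, h2⟩ := hb a _ (isOpen_ball.inter (isOpen_OJ hJf)) ⟨mem_ball'.2 hd, hAO ha⟩
    exact ⟨W, hW, ⟨a, ha, h1⟩, h2⟩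
  choose w hw1 hw2 hw3 using hex
  refine ⟨w '' I, J, ⟨hI.image w, hJf, (insert_nonempty _ _).image w, ?_, ?_, ?_⟩, ?_, ⟨?_, ?_⟩, ?_⟩
  · rintro _ ⟨x, -, rfl⟩
    exact ho _ (hw1 x)
  · rintro _ ⟨x, -, rfl⟩
    exact (hw2 x).mono inter_subset_right
  · rintro _ ⟨x, -, rfl⟩
    exact (hw3 x).trans inter_subset_right
  · rintro _ ⟨x, -, rfl⟩
    exact hw1 x
  · rintro _ ⟨x, -, rfl⟩
    exact hw2 x
  · rintro _ ⟨x, -, rfl⟩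
    show infDist x A.1 - ε < infDist x A.1
    linarith
  · intro B hB
    refine hB0 B fun x hx => ?_
    obtain ⟨b, hb1, hb2⟩ := hB.1 (w x) ⟨x, Or.inr hx, rfl⟩
    have k1 := mem_ball'.1 (hw3 x hb2).1
    have k2 := infDist_le_dist_of_mem (x := x) hb1
    have k3 : infDist x A.1 - ε < infDist x B.1 := hB.2 _ ⟨x, Or.inr hx, rfl⟩
    rw [abs_lt]
    constructor <;> linarith

theorem sub_nhds {U : Set (CL X)} (hU : IsOpen U) {A : CL X} (hA : A ∈ U) :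
    ∃ (K : Set X) (ε : ℝ), K.Finite ∧ K ⊆ A.1 ∧ 0 < ε ∧
      ∀ B : CL X, B.1 ⊆ A.1 → (∀ k ∈ K, ∃ b ∈ B.1, dist k b < ε) → B ∈ U := by
  obtain ⟨I, ε, hI, hε, hB⟩ := basic_nhds hU hA
  have hex : ∀ x : X, ∃ a ∈ A.1, dist x a < infDist x A.1 + ε / 2 := fun x =>
    (infDist_lt_iff A.2.2).1 (by linarith)
  choose a ha hd using hex
  refine ⟨a '' I, ε / 2, hI.image a, ?_, half_pos hε, fun B h1 h2 => hB B fun x hx => ?_⟩
  · rintro _ ⟨x, -, rfl⟩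
    exact ha x
  · obtain ⟨b, hb, hdb⟩ := h2 (a x) ⟨x, hx, rfl⟩
    have k1 : infDist x A.1 ≤ infDist x B.1 := infDist_le_infDist_of_subset h1 B.2.2
    have k2 := infDist_le_dist_of_mem (x := x) hb
    have k3 := dist_triangle x (a x) b
    have := hd x
    rw [abs_lt]
    constructor <;> linarith

end Pool.Agent.H251Z.Wij
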