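import Mathlib
import Pool.Agent.H251Z.CJDefs

/-! A complete metric space: uncountably many copies of the Baire space, together with a discrete
set of auxiliary points whose balls cut out prescribed unions of cylinders. -/

set_option autoImplicit false

namespace Pool.Agent.H251Z.Wij

open Set Filter Topology Metric

theorem baseCompact_of_nonarch (X : Type) [MetricSpace X] [CompleteSpace X]
    (hna : ∀ a b c : X, dist a b < 2 → dist b c < 2 → dist a c ≤ max (dist a b) (dist b c)) :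
    BaseCompact X := by
  refine ⟨inferInstance, {B | ∃ (a : X) (n : ℕ), B = ball a ((1 / 2) ^ n)}, ?_, ?_⟩
  · refine TopologicalSpace.isTopologicalBasis_of_isOpen_of_nhds ?_ ?_
    · rintro _ ⟨a, n, rfl⟩
      exact isOpen_ball
    · intro a U ha hU
      obtain ⟨ε, hε, hb⟩ := Metric.isOpen_iff.1 hU a ha
      obtain ⟨n, hn⟩ := exists_pow_lt_of_lt_one hε (by norm_num : (1 / 2 : ℝ) < 1)
      exact ⟨_, ⟨a, n, rfl⟩, mem_ball_self (by positivity), (ball_subset_ball hn.le).trans hb⟩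
  · intro 𝒞 hsub hcen
    have hpair : ∀ B ∈ 𝒞, ∀ B' ∈ 𝒞, (B ∩ B').Nonempty := by
      intro B hB B' hB'
      have := hcen {B, B'} (by
        rintro _ (rfl | rfl)
        · exact hB
        · exact hB') (toFinite _)
      rwa [sInter_pair] at this
    have hle1 : ∀ n : ℕ, (1 / 2 : ℝ) ^ n ≤ 1 := fun n => pow_le_one₀ (by norm_num) (by norm_num)
    let S : Set ℕ := {n | ∃ a : X, ball a ((1 / 2) ^ n) ∈ 𝒞}
    rcases 𝒞.eq_empty_or_nonempty with rfl | ⟨B0, hB0⟩
    · have := hcen ∅ subset_rfl finite_empty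
      simpa using this
    by_cases hbdd : BddAbove S
    · have hSne : S.Nonempty := by
        obtain ⟨a, n, rfl⟩ := hsub hB0
        exact ⟨n, a, hB0⟩
      obtain ⟨a, ha⟩ := Nat.sSup_mem hSne hbdd
      refine ⟨a, mem_iInter₂.2 fun B hB => subset_closure ?_⟩
      obtain ⟨b, n, rfl⟩ := hsub hB
      have hn : n ≤ sSup S := le_csSup hbdd ⟨b, hB⟩
      obtain ⟨z, hz1, hz2⟩ := hpair _ ha _ hB
      rw [mem_ball] at hz1 hz2 ⊢
      have h1 : (1 / 2 : ℝ) ^ sSup S ≤ (1 / 2) ^ n :=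
        pow_le_pow_of_le_one (by norm_num) (by norm_num) hn
      have h2 := hle1 n
      rw [dist_comm] at hz1
      exact (hna a z b (by linarith) (by linarith)).trans_lt (max_lt (by linarith) hz2)
    · have hex : ∀ k : ℕ, ∃ n ≥ k, ∃ a : X, ball a ((1 / 2) ^ n) ∈ 𝒞 := by
        intro k
        obtain ⟨n, hn, hkn⟩ := not_bddAbove_iff.1 hbdd k
        exact ⟨n, hkn.le, hn⟩
      choose n hn a ha using hex
      have hr : ∀ k, (1 / 2 : ℝ) ^ n k ≤ (1 / 2) ^ k := fun k =>
        pow_le_pow_of_le_one (by norm_num) (by norm_num) (hn k)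
      have hc : CauchySeq a := by
        refine cauchySeq_of_le_geometric (1 / 2) 2 (by norm_num) fun k => ?_
        obtain ⟨z, hz1, hz2⟩ := hpair _ (ha k) _ (ha (k + 1))
        rw [mem_ball] at hz1 hz2
        have h1 := dist_triangle_left (a k) (a (k + 1)) z
        have h2 := hr k
        have h3 := hr (k + 1)
        have h4 : (1 / 2 : ℝ) ^ (k + 1) ≤ (1 / 2) ^ k :=
          pow_le_pow_of_le_one (by norm_num) (by norm_num) (Nat.le_succ k)
        linarith
      obtain ⟨p, hp⟩ := cauchySeq_tendsto_of_complete hc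
      refine ⟨p, mem_iInter₂.2 fun B hB => ?_⟩
      rw [Metric.mem_closure_iff]
      intro ε hε
      have t1 : ∀ᶠ k in atTop, (1 / 2 : ℝ) ^ k < ε / 2 :=
        (tendsto_pow_atTop_nhds_zero_of_lt_one (by norm_num) (by norm_num)).eventually
          (gt_mem_nhds (half_pos hε))
      obtain ⟨k, hk1, hk2⟩ := (t1.and (hp.eventually (ball_mem_nhds p (half_pos hε)))).exists
      obtain ⟨z, hz1, hz2⟩ := hpair _ (ha k) _ hB
      refine ⟨z, hz2, ?_⟩
      rw [mem_ball] at hz1
      have h1 := dist_triangle_left p z (a k)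
      have h2 := hr k
      rw [dist_comm] at hz1
      linarith

attribute [local instance] PiNat.metricSpaceNatNat

/-- The underlying set of the space. -/
def Sp : Type := (ℝ × (ℕ → ℕ)) ⊕ (ℕ × (ℝ → ℕ))

open Classical in
/-- Distance between two points of the copies of the Baire space. -/
noncomputable def dP (p p' : ℝ × (ℕ → ℕ)) : ℝ := if p.1 = p'.1 then dist p.2 p'.2 else 2

/-- Distance between a point of a copy of the Baire space and an auxiliary point. -/
noncomputable def dD (p : ℝ × (ℕ → ℕ)) (q : ℕ × (ℝ → ℕ)) : ℝ :=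
  if p.2 q.1 < q.2 p.1 then 2 else 2 + (1 / 2) ^ q.1

open Classical in
/-- Distance between auxiliary points. -/
noncomputable def dQ (q q' : ℕ × (ℝ → ℕ)) : ℝ := if q = q' then 0 else 2

/-- The distance. -/
noncomputable def dS : Sp → Sp → ℝ
  | Sum.inl p, Sum.inl p' => dP p p'
  | Sum.inl p, Sum.inr q => dD p q
  | Sum.inr q, Sum.inl p => dD p q
  | Sum.inr q, Sum.inr q' => dQ q q'

theorem dP_nonneg (p p' : ℝ × (ℕ → ℕ)) : 0 ≤ dP p p' := by
  unfold dP
  split_ifs
  · exact dist_nonneg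
  · norm_num

theorem dP_le (p p' : ℝ × (ℕ → ℕ)) : dP p p' ≤ 2 := by
  unfold dP
  split_ifs
  · exact (PiNat.dist_le_one _ _).trans (by norm_num)
  · norm_num

theorem dP_comm (p p' : ℝ × (ℕ → ℕ)) : dP p p' = dP p' p := by
  unfold dP
  by_cases h : p.1 = p'.1
  · rw [if_pos h, if_pos h.symm, dist_comm]
  · rw [if_neg h, if_neg (Ne.symm h)]

theorem dP_tri (p p' p'' : ℝ × (ℕ → ℕ)) : dP p p'' ≤ dP p p' + dP p' p'' := by
  by_cases h : p.1 = p'.1
  · by_cases h' : p'.1 = p''.1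
    · unfold dP
      rw [if_pos h, if_pos h', if_pos (h.trans h')]
      exact dist_triangle _ _ _
    · have : dP p' p'' = 2 := if_neg h'
      linarith [dP_le p p'', dP_nonneg p p']
  · have : dP p p' = 2 := if_neg h
    linarith [dP_le p p'', dP_nonneg p' p'']

theorem dD_ge (p : ℝ × (ℕ → ℕ)) (q : ℕ × (ℝ → ℕ)) : 2 ≤ dD p q := by
  unfold dD
  split_ifs
  · exact le_rfl
  · have : (0 : ℝ) ≤ (1 / 2) ^ q.1 := by positivity
    linarith

theorem dD_le' (p : ℝ × (ℕ → ℕ)) (q : ℕ × (ℝ → ℕ)) : dD p q ≤ 2 + (1 / 2) ^ q.1 := by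
  unfold dD
  split_ifs
  · have : (0 : ℝ) ≤ (1 / 2) ^ q.1 := by positivity
    linarith
  · exact le_rfl

theorem dD_le (p : ℝ × (ℕ → ℕ)) (q : ℕ × (ℝ → ℕ)) : dD p q ≤ 3 := by
  have h1 := dD_le' p q
  have : (1 / 2 : ℝ) ^ q.1 ≤ 1 := pow_le_one₀ (by norm_num) (by norm_num)
  linarith

theorem dD_lip (p p' : ℝ × (ℕ → ℕ)) (q : ℕ × (ℝ → ℕ)) : dD p q ≤ dP p p' + dD p' q := by
  by_cases h : p.1 = p'.1
  · by_cases h2 : p.2 q.1 = p'.2 q.1
    · have : dD p q = dD p' q := by
        unfold dD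
        rw [h, h2]
      linarith [dP_nonneg p p']
    · have h3 : (1 / 2 : ℝ) ^ q.1 ≤ dist p.2 p'.2 := by
        by_contra hc
        exact h2 (PiNat.apply_eq_of_dist_lt (not_le.1 hc) le_rfl)
      have h4 : dP p p' = dist p.2 p'.2 := if_pos h
      linarith [dD_le' p q, dD_ge p' q]
  · have : dP p p' = 2 := if_neg h
    linarith [dD_le p q, dD_ge p' q]

theorem dQ_nonneg (q q' : ℕ × (ℝ → ℕ)) : 0 ≤ dQ q q' := by
  unfold dQ
  split_ifs <;> norm_num

theorem dQ_le (q q' : ℕ × (ℝ → ℕ)) : dQ q q' ≤ 2 := by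
  unfold dQ
  split_ifs <;> norm_num

theorem dQ_comm (q q' : ℕ × (ℝ → ℕ)) : dQ q q' = dQ q' q := by
  unfold dQ
  by_cases h : q = q'
  · rw [if_pos h, if_pos h.symm]
  · rw [if_neg h, if_neg (Ne.symm h)]

theorem dDQ (p : ℝ × (ℕ → ℕ)) (q q' : ℕ × (ℝ → ℕ)) : dD p q' ≤ dD p q + dQ q q' := by
  by_cases h : q = q'
  · subst h
    linarith [dQ_nonneg q q]
  · have : dQ q q' = 2 := if_neg h
    linarith [dD_le p q', dD_ge p q]

theorem dQ_tri (q q' q'' : ℕ × (ℝ → ℕ)) : dQ q q'' ≤ dQ q q' + dQ q' q'' := by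
  by_cases h : q = q'
  · subst h
    linarith [dQ_nonneg q q]
  · have : dQ q q' = 2 := if_neg h
    linarith [dQ_le q q'', dQ_nonneg q' q'']

/-- The metric space structure. -/
noncomputable instance metSp : MetricSpace Sp where
  dist := dS
  dist_self := by
    rintro (p | q)
    · show dP p p = 0
      simp [dP]
    · show dQ q q = 0
      simp [dQ]
  dist_comm := by
    rintro (p | q) (p' | q')
    · exact dP_comm p p'
    · rfl
    · rfl
    · exact dQ_comm q q'
  dist_triangle := by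
    rintro (p | q) (p' | q') (p'' | q'')
    · exact dP_tri p p' p''
    · exact dD_lip p p' q''
    · show dP p p'' ≤ dD p q' + dD p'' q'
      linarith [dP_le p p'', dD_ge p q', dD_ge p'' q']
    · exact dDQ p q' q''
    · show dD p'' q ≤ dD p' q + dP p' p''
      rw [dP_comm, add_comm]
      exact dD_lip p'' p' q
    · show dQ q q'' ≤ dD p' q + dD p' q''
      linarith [dQ_le q q'', dD_ge p' q, dD_ge p' q'']
    · show dD p'' q ≤ dQ q q' + dD p'' q'
      rw [dQ_comm, add_comm]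
      exact dDQ p'' q' q
    · exact dQ_tri q q' q''
  eq_of_dist_eq_zero := by
    rintro (p | q) (p' | q') h
    · change dP p p' = 0 at h
      by_cases h1 : p.1 = p'.1
      · have h2 : dP p p' = dist p.2 p'.2 := if_pos h1
        rw [h2, dist_eq_zero] at h
        exact congrArg Sum.inl (Prod.ext h1 h)
      · have h2 : dP p p' = 2 := if_neg h1
        linarith
    · change dD p q' = 0 at h
      linarith [dD_ge p q']
    · change dD p' q = 0 at h
      linarith [dD_ge p' q]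
    · change dQ q q' = 0 at h
      by_cases h1 : q = q'
      · rw [h1]
      · have h2 : dQ q q' = 2 := if_neg h1
        linarith

/-- The point `x` of the copy number `i` of the Baire space. -/
def pt (i : ℝ) (x : ℕ → ℕ) : Sp := Sum.inl (i, x)

/-- An auxiliary point. -/
def aux (L : ℕ) (g : ℝ → ℕ) : Sp := Sum.inr (L, g)

theorem dist_pt (i : ℝ) (x y : ℕ → ℕ) : dist (pt i x) (pt i y) = dist x y := by
  show dP (i, x) (i, y) = _
  exact if_pos rfl

theorem near_pt {i : ℝ} {x : ℕ → ℕ} {z : Sp} (h : dist (pt i x) z < 2) : ∃ y, z = pt i y := by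
  rcases z with ⟨j, y⟩ | q
  · by_cases hij : i = j
    · subst hij
      exact ⟨y, rfl⟩
    · have : dist (pt i x) (Sum.inl (j, y) : Sp) = 2 := if_neg hij
      linarith
  · have : 2 ≤ dist (pt i x) (Sum.inr q : Sp) := dD_ge _ _
    linarith

theorem near_aux {L : ℕ} {g : ℝ → ℕ} {z : Sp} (h : dist (aux L g) z < 2) : z = aux L g := by
  rcases z with p | q
  · have : 2 ≤ dist (aux L g) (Sum.inl p : Sp) := dD_ge _ _
    linarith
  · by_cases hq : (L, g) = q
    · rw [← hq]; rfl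
    · have : dist (aux L g) (Sum.inr q : Sp) = 2 := if_neg hq
      linarith

theorem sp_cases (z : Sp) : (∃ i x, z = pt i x) ∨ ∃ L g, z = aux L g := by
  rcases z with ⟨i, x⟩ | ⟨L, g⟩
  · exact Or.inl ⟨i, x, rfl⟩
  · exact Or.inr ⟨L, g, rfl⟩

theorem pt_inj {i j : ℝ} {x y : ℕ → ℕ} (h : pt i x = pt j y) : i = j ∧ x = y :=
  Prod.mk.inj (Sum.inl.inj h)

theorem pt_ne_aux (i : ℝ) (x : ℕ → ℕ) (L : ℕ) (g : ℝ → ℕ) : pt i x ≠ aux L g :=
  Sum.inl_ne_inr

theorem dist_aux_of_lt {L : ℕ} {g : ℝ → ℕ} {i : ℝ} {x : ℕ → ℕ} (h : x L < g i) :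
    dist (aux L g) (pt i x) = 2 := if_pos h

theorem dist_aux_of_le {L : ℕ} {g : ℝ → ℕ} {i : ℝ} {x : ℕ → ℕ} (h : g i ≤ x L) :
    dist (aux L g) (pt i x) = 2 + (1 / 2) ^ L := if_neg (not_lt.2 h)

theorem dist_pt_le {i : ℝ} {x y : ℕ → ℕ} {L : ℕ} (h : ∀ n < L, x n = y n) :
    dist (pt i x) (pt i y) ≤ (1 / 2) ^ L := by
  rw [dist_pt]
  exact PiNat.mem_cylinder_iff_dist_le.1 h

theorem eq_of_dist_pt_lt {i : ℝ} {x y : ℕ → ℕ} {L : ℕ}
    (h : dist (pt i x) (pt i y) < (1 / 2) ^ L) : x L = y L := by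
  rw [dist_pt] at h
  exact PiNat.apply_eq_of_dist_lt h le_rfl

theorem sp_nonarch (a b c : Sp) (h1 : dist a b < 2) (h2 : dist b c < 2) :
    dist a c ≤ max (dist a b) (dist b c) := by
  rcases sp_cases a with ⟨i, x, rfl⟩ | ⟨L, g, rfl⟩
  · obtain ⟨y, rfl⟩ := near_pt h1
    obtain ⟨z, rfl⟩ := near_pt h2
    rw [dist_pt, dist_pt, dist_pt]
    exact PiNat.dist_triangle_nonarch x y z
  · rw [near_aux h1]
    exact le_max_right _ _

theorem sp_complete : CompleteSpace Sp := by
  refine Metric.complete_of_cauchySeq_tendsto fun u hu => ?_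
  obtain ⟨N, hN⟩ := Metric.cauchySeq_iff'.1 hu 2 (by norm_num)
  have hN' : ∀ n, dist (u N) (u (n + N)) < 2 := fun n => by
    rw [dist_comm]
    exact hN _ (Nat.le_add_left N n)
  have hu' : CauchySeq fun n => u (n + N) := (cauchySeq_shift N).2 hu
  rcases sp_cases (u N) with ⟨i, x, e⟩ | ⟨L, g, e⟩
  · rw [e] at hN'
    choose y hy using fun n => near_pt (hN' n)
    have hc : CauchySeq y := by
      rw [Metric.cauchySeq_iff] at hu' ⊢
      intro ε hε
      obtain ⟨M, hM⟩ := hu' ε hε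
      refine ⟨M, fun m hm n hn => ?_⟩
      have := hM m hm n hn
      rwa [hy, hy, dist_pt] at this
    obtain ⟨z, hz⟩ := cauchySeq_tendsto_of_complete hc
    refine ⟨pt i z, (tendsto_add_atTop_iff_nat N).1 ?_⟩
    rw [Metric.tendsto_atTop] at hz ⊢
    intro ε hε
    obtain ⟨M, hM⟩ := hz ε hε
    exact ⟨M, fun n hn => by rw [hy, dist_pt]; exact hM n hn⟩
  · rw [e] at hN'
    refine ⟨aux L g, (tendsto_add_atTop_iff_nat N).1 ?_⟩
    have : (fun n => u (n + N)) = fun _ => aux L g := funext fun n => near_aux (hN' n)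
    rw [this]
    exact tendsto_const_nhds

theorem sp_baseCompact : BaseCompact Sp := by
  have := sp_complete
  exact baseCompact_of_nonarch Sp sp_nonarch

end Pool.Agent.H251Z.Wij
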