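import Mathlib
import Pool.Agent.H251Z.CJBasic
import Pool.Agent.H251Z.CJSpace

/-! The Wijsman hyperspace of `Sp` is not base-compact. -/

set_option autoImplicit false

namespace Pool.Agent.H251Z.Wij

open Set Filter Topology Metric

attribute [local instance] wijsman

/-- The points `x` of the copies `i` of the Baire space with `g i ≤ x L`. -/
def TT (L : ℕ) (g : ℝ → ℕ) : Set Sp := {z | ∃ i x, z = pt i x ∧ g i ≤ x L}

theorem pt_mem_TT {L : ℕ} {g : ℝ → ℕ} {i : ℝ} {x : ℕ → ℕ} : pt i x ∈ TT L g ↔ g i ≤ x L := by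
  constructor
  · rintro ⟨j, y, e, h⟩
    obtain ⟨rfl, rfl⟩ := pt_inj e
    exact h
  · exact fun h => ⟨i, x, rfl, h⟩

theorem isClosed_TT (L : ℕ) (g : ℝ → ℕ) : IsClosed (TT L g) := by
  rw [← isOpen_compl_iff, Metric.isOpen_iff]
  intro z hz
  have hle : (1 / 2 : ℝ) ^ L ≤ 1 := pow_le_one₀ (by norm_num) (by norm_num)
  refine ⟨(1 / 2) ^ L, by positivity, fun w hw hwT => ?_⟩
  rw [mem_ball'] at hw
  rcases sp_cases z with ⟨i, x, rfl⟩ | ⟨M, h, rfl⟩
  · obtain ⟨y, rfl⟩ := near_pt (i := i) (x := x) (z := w) (by linarith)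
    apply hz
    rw [pt_mem_TT] at hwT ⊢
    rwa [eq_of_dist_pt_lt hw]
  · obtain ⟨j, y, e, -⟩ := hwT
    exact pt_ne_aux j y M h (e.symm.trans (near_aux (by linarith)))

/-- The same as a point of the hyperspace. -/
def TC (L : ℕ) (g : ℝ → ℕ) : CL Sp :=
  ⟨TT L g, isClosed_TT L g, ⟨pt 0 (fun _ => g 0), pt_mem_TT.2 le_rfl⟩⟩

theorem closure_hit {i : ℝ} {A : CL Sp}
    (hA : A ∈ closure {B : CL Sp | infDist (pt i (fun _ => 0)) B.1 < 3 / 2}) :
    ∃ x, pt i x ∈ A.1 := by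
  have h1 : infDist (pt i (fun _ => 0)) A.1 ≤ 3 / 2 :=
    closure_minimal (s := {B : CL Sp | infDist (pt i (fun _ => 0)) B.1 < 3 / 2})
      (t := {B : CL Sp | infDist (pt i (fun _ => 0)) B.1 ≤ 3 / 2})
      (fun B (hB : infDist (pt i (fun _ => 0)) B.1 < 3 / 2) => hB.le)
      (isClosed_le (cont_infDist _) continuous_const) hA
  obtain ⟨z, hz, hd⟩ := (infDist_lt_iff (x := pt i (fun _ => 0)) (r := 2) A.2.2).1 (by linarith)
  obtain ⟨y, rfl⟩ := near_pt hd
  exact ⟨y, hz⟩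

theorem closure_miss {L : ℕ} {g : ℝ → ℕ} {A : CL Sp}
    (hA : A ∈ closure {B : CL Sp | 2 + (1 / 2) ^ L / 2 < infDist (aux L g) B.1})
    {i : ℝ} {x : ℕ → ℕ} (hx : pt i x ∈ A.1) : g i ≤ x L := by
  have h1 : 2 + (1 / 2) ^ L / 2 ≤ infDist (aux L g) A.1 :=
    closure_minimal (s := {B : CL Sp | 2 + (1 / 2) ^ L / 2 < infDist (aux L g) B.1})
      (t := {B : CL Sp | 2 + (1 / 2) ^ L / 2 ≤ infDist (aux L g) B.1})
      (fun B (hB : 2 + (1 / 2) ^ L / 2 < infDist (aux L g) B.1) => hB.le)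
      (isClosed_le continuous_const (cont_infDist _)) hA
  by_contra hc
  have h2 := infDist_le_dist_of_mem (x := aux L g) hx
  rw [dist_aux_of_lt (not_le.1 hc)] at h2
  have : (0 : ℝ) < (1 / 2) ^ L / 2 := by positivity
  linarith

theorem TC_mem_miss (L : ℕ) (g : ℝ → ℕ) :
    TC L g ∈ {B : CL Sp | 2 + (1 / 2) ^ L / 2 < infDist (aux L g) B.1} := by
  have h1 : 2 + (1 / 2) ^ L ≤ infDist (aux L g) (TC L g).1 := by
    refine (le_infDist (TC L g).2.2).2 ?_
    rintro _ ⟨i, x, rfl, h⟩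
    rw [dist_aux_of_le h]
  have : (0 : ℝ) < (1 / 2) ^ L := by positivity
  show 2 + (1 / 2) ^ L / 2 < infDist (aux L g) (TC L g).1
  linarith

theorem baire_step (N : (ℕ → ℕ) → ℕ) : ∃ (m : ℕ) (f : ℕ → ℕ → ℕ),
    (∀ k, N (f k) ≤ m) ∧ (∀ k, f k m = k) ∧ ∀ k l, ∀ n < m, f k n = f l n := by
  obtain ⟨M, f0, hf0⟩ := nonempty_interior_of_iUnion_of_closed
    (f := fun M : ℕ => closure {f : ℕ → ℕ | N f = M}) (fun _ => isClosed_closure)
    (eq_univ_of_forall fun f => mem_iUnion.2 ⟨N f, subset_closure rfl⟩)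
  obtain ⟨_, ⟨x, m0, rfl⟩, hx, hsub⟩ :=
    (PiNat.isTopologicalBasis_cylinders (fun _ : ℕ => ℕ)).exists_subset_of_mem_open hf0
      isOpen_interior
  set m := max m0 M with hm
  have hex : ∀ k : ℕ, ∃ f : ℕ → ℕ, N f = M ∧ ∀ n < m + 1, f n = Function.update f0 m k n := by
    intro k
    have h1 : Function.update f0 m k ∈ closure {f : ℕ → ℕ | N f = M} := by
      refine interior_subset (hsub ?_)
      intro i hi
      rw [Function.update_of_ne (by omega)]
      exact hx i hi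
    obtain ⟨f, hf1, hf2⟩ := _root_.mem_closure_iff.1 h1 _
      (PiNat.isOpen_cylinder (fun _ : ℕ => ℕ) (Function.update f0 m k) (m + 1))
      (PiNat.self_mem_cylinder _ _)
    exact ⟨f, hf2, hf1⟩
  choose f hf1 hf2 using hex
  refine ⟨m, f, fun k => by rw [hf1]; exact le_max_right _ _, fun k => ?_, fun k l n hn => ?_⟩
  · rw [hf2 k m (Nat.lt_succ_self m), Function.update_self]
  · rw [hf2 k n (by omega), hf2 l n (by omega), Function.update_of_ne hn.ne,
      Function.update_of_ne hn.ne]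

theorem not_baseCompact : ¬ BaseCompact (CL Sp) := by
  rintro ⟨-, 𝔅, hb, hw⟩
  -- Step 1: base elements around the whole family of copies
  have h1 : ∀ i : ℝ, ∃ V ∈ 𝔅, V ⊆ {B : CL Sp | infDist (pt i (fun _ => 0)) B.1 < 3 / 2} ∧
      ∃ L0 : ℕ, ∀ L ≥ L0, ∀ g, TC L g ∈ V := by
    intro i
    obtain ⟨V, hV, hm, hs⟩ := hb.exists_subset_of_mem_open (a := TC 0 (fun _ => 0))
      (u := {B : CL Sp | infDist (pt i (fun _ => 0)) B.1 < 3 / 2}) (by
        show infDist (pt i (fun _ => 0)) (TT 0 (fun _ => 0)) < 3 / 2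
        rw [infDist_zero_of_mem (pt_mem_TT.2 le_rfl)]
        norm_num) (isOpen_lt' _ _)
    obtain ⟨K, ε, -, hK, hε, hB⟩ := sub_nhds (hb.isOpen hV) hm
    obtain ⟨L0, hL0⟩ := exists_pow_lt_of_lt_one hε (by norm_num : (1 / 2 : ℝ) < 1)
    refine ⟨V, hV, hs, L0, fun L hL g => hB _ ?_ ?_⟩
    · rintro _ ⟨j, x, rfl, -⟩
      exact pt_mem_TT.2 (Nat.zero_le _)
    · intro k hk
      obtain ⟨j, x, rfl, -⟩ := hK hk
      refine ⟨pt j (Function.update x L (g j)), pt_mem_TT.2 (by rw [Function.update_self]), ?_⟩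
      refine (dist_pt_le (L := L) fun n hn => ?_).trans_lt ?_
      · rw [Function.update_of_ne hn.ne]
      · exact (pow_le_pow_of_le_one (by norm_num) (by norm_num) hL).trans_lt hL0
  choose V hV hVs L0 hL0 using h1
  obtain ⟨L, hL⟩ : ∃ L, {i | L0 i = L}.Infinite := by
    by_contra hc
    push Not at hc
    have : (univ : Set ℝ) = ⋃ L, {i | L0 i = L} :=
      (eq_univ_of_forall fun i => mem_iUnion.2 ⟨L0 i, rfl⟩).symm
    exact not_countable_univ (this ▸ countable_iUnion fun L => (hc L).countable)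
  let a : ℕ → ℝ := fun n => hL.natEmbedding _ n
  have ha : Function.Injective a := fun m n h =>
    (hL.natEmbedding _).injective (Subtype.ext h)
  have haL : ∀ n, L0 (a n) = L := fun n => (hL.natEmbedding _ n).2
  let G : (ℕ → ℕ) → ℝ → ℕ := fun f => Function.extend a f (fun _ => 0)
  have hGa : ∀ f n, G f (a n) = f n := fun f n => ha.extend_apply _ _ _
  have hG0 : ∀ f j, (¬ ∃ n, a n = j) → G f j = 0 := fun f j h => Function.extend_apply' _ _ _ h
  -- Step 2: base elements around the pruned sets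
  have h2 : ∀ f : ℕ → ℕ, ∃ B ∈ 𝔅,
      B ⊆ {B : CL Sp | 2 + (1 / 2) ^ L / 2 < infDist (aux L (G f)) B.1} ∧
      ∃ N : ℕ, ∀ f' : ℕ → ℕ, (∀ n, f n ≤ f' n) → (∀ n < N, f' n = f n) → TC L (G f') ∈ B := by
    intro f
    obtain ⟨B, hB, hm, hs⟩ := hb.exists_subset_of_mem_open (TC_mem_miss L (G f)) (isOpen_gt _ _)
    obtain ⟨K, ε, hKf, hK, hε, hin⟩ := sub_nhds (hb.isOpen hB) hm
    let c : Sp → ℝ := fun z => match z with
      | Sum.inl p => p.1
      | Sum.inr _ => 0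
    obtain ⟨N, hN⟩ := ((hKf.image c).preimage ha.injOn).bddAbove
    refine ⟨B, hB, hs, N + 1, fun f' hle heq => hin _ ?_ ?_⟩
    · rintro _ ⟨j, x, rfl, h⟩
      refine pt_mem_TT.2 (le_trans ?_ h)
      by_cases hj : ∃ n, a n = j
      · obtain ⟨n, rfl⟩ := hj
        rw [hGa, hGa]
        exact hle n
      · rw [hG0 f j hj]
        exact Nat.zero_le _
    · intro k hk
      refine ⟨k, ?_, by rwa [dist_self]⟩
      obtain ⟨j, x, rfl, h⟩ := hK hk
      refine pt_mem_TT.2 (le_trans ?_ h)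
      by_cases hj : ∃ n, a n = j
      · obtain ⟨n, rfl⟩ := hj
        have hn : n ≤ N := hN ⟨_, hk, rfl⟩
        rw [hGa, hGa, heq n (by omega)]
      · rw [hG0 f' j hj]
        exact Nat.zero_le _
  choose B hB hBs N hN using h2
  obtain ⟨m, f, hf1, hf2, hf3⟩ := baire_step N
  let F : ℕ → ℕ → ℕ := fun k0 n => (Finset.range (k0 + 1)).sup fun k => f k n
  have hev : ∀ S ∈ insert (V (a m)) (range fun k => B (f k)), ∀ᶠ k0 in atTop, TC L (G (F k0)) ∈ S := by
    rintro _ (rfl | ⟨k, rfl⟩)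
    · exact Eventually.of_forall fun k0 => hL0 _ L (haL m).le _
    · filter_upwards [eventually_ge_atTop k] with k0 hk0
      have hle : ∀ n, f k n ≤ F k0 n := fun n =>
        Finset.le_sup (f := fun k => f k n) (Finset.mem_range.2 (by omega))
      refine hN _ _ hle fun n hn => le_antisymm ?_ (hle n)
      exact Finset.sup_le fun l _ => (hf3 l k n (lt_of_lt_of_le hn (hf1 k))).le
  obtain ⟨A, hA⟩ := hw (insert (V (a m)) (range fun k => B (f k)))
    (by
      rintro _ (rfl | ⟨k, rfl⟩)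
      · exact hV _
      · exact hB _)
    (fun t ht hfin => by
      obtain ⟨k0, hk0⟩ := ((eventually_all_finite hfin).2 fun S hS => hev S (ht hS)).exists
      exact ⟨_, hk0⟩)
  rw [mem_iInter₂] at hA
  obtain ⟨x, hx⟩ := closure_hit (closure_mono (hVs _) (hA _ (Or.inl rfl)))
  have := closure_miss (closure_mono (hBs _) (hA _ (Or.inr ⟨x L + 1, rfl⟩))) hx
  rw [hGa, hf2] at this
  omega

end Pool.Agent.H251Z.Wij
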