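import Mathlib
import Pool.Agent.H251Z.CJBasic
import Pool.Agent.Helper63.Wijsman.Complete

/-! Pseudocompleteness and subcompactness pass to the Wijsman hyperspace. -/

set_option autoImplicit false

namespace Pool.Agent.H251Z.Wij

open Set Filter Topology Metric

attribute [local instance] wijsman

theorem quasiRegular_of_regular (Y : Type) [TopologicalSpace Y] [RegularSpace Y] :
    QuasiRegular Y := by
  rintro U hU ⟨x, hx⟩
  obtain ⟨V, hV, hVc⟩ := (hasBasis_opens_closure x).mem_iff.mp (hU.mem_nhds hx)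
  exact ⟨V, hV.2, ⟨x, hV.1⟩, hVc⟩

theorem tail_piBases {Y : Type} [TopologicalSpace Y] (h : Pseudocomplete Y) :
    ∃ 𝔔 : ℕ → Set (Set Y), (∀ n, IsPiBase (𝔔 n)) ∧
      ∀ (n : ℕ) (V : ℕ → Set Y), (∀ k, V k ∈ 𝔔 (n + k)) → (∀ k, closure (V (k + 1)) ⊆ V k) →
        (⋂ k, V k).Nonempty := by
  obtain ⟨hq, 𝔓, h1, h2⟩ := h
  let 𝔔 : ℕ → Set (Set Y) := fun n => {W | ∃ c : ℕ → Set Y, c n = W ∧ (∀ i ≤ n, c i ∈ 𝔓 i) ∧
    ∀ i < n, closure (c (i + 1)) ⊆ c i}
  have hsub : ∀ n, 𝔔 n ⊆ 𝔓 n := by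
    rintro n W ⟨c, rfl, hc, -⟩
    exact hc n le_rfl
  refine ⟨𝔔, fun n => ⟨fun V hV => (h1 n).1 V (hsub n hV), ?_⟩, ?_⟩
  · intro U hU hne
    induction n with
    | zero =>
      obtain ⟨V, hV, hVU⟩ := (h1 0).2 U hU hne
      refine ⟨V, ⟨fun _ => V, rfl, fun i hi => ?_, fun i hi => absurd hi (Nat.not_lt_zero i)⟩, hVU⟩
      rw [Nat.le_zero.1 hi]
      exact hV
    | succ n ih =>
      obtain ⟨W, hW, hWU⟩ := ih
      have hW' := (h1 n).1 W (hsub n hW)
      obtain ⟨O, hO, hOne, hOW⟩ := hq W hW'.1 hW'.2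
      obtain ⟨V, hV, hVO⟩ := (h1 (n + 1)).2 O hO hOne
      obtain ⟨c, rfl, hc1, hc2⟩ := hW
      refine ⟨V, ⟨fun i => if i ≤ n then c i else V, by simp, fun i hi => ?_, fun i hi => ?_⟩,
        (hVO.trans (subset_closure.trans hOW)).trans hWU⟩
      · by_cases hin : i ≤ n
        · simp only [hin, if_true]
          exact hc1 i hin
        · have : i = n + 1 := by omega
          subst this
          simp only [hin, if_false]
          exact hV
      · by_cases hin : i < n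
        · have e1 : i + 1 ≤ n := hin
          have e2 : i ≤ n := hin.le
          simp only [e1, e2, if_true]
          exact hc2 i hin
        · have : i = n := by omega
          subst this
          simp only [le_refl, if_true, Nat.not_succ_le_self, if_false]
          exact (closure_mono hVO).trans hOW
  · intro n V hV hcl
    obtain ⟨c, hc0, hc1, hc2⟩ := hV 0
    simp only [Nat.add_zero] at hc0 hc1 hc2
    obtain ⟨p, hp⟩ := h2 (fun i => if i ≤ n then c i else V (i - n)) (fun i => by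
      by_cases hin : i ≤ n
      · simp only [hin, if_true]
        exact hc1 i hin
      · simp only [hin, if_false]
        have := hsub _ (hV (i - n))
        rwa [show n + (i - n) = i by omega] at this) (fun i => by
      by_cases hin : i < n
      · have e1 : i + 1 ≤ n := hin
        have e2 : i ≤ n := hin.le
        simp only [e1, e2, if_true]
        exact hc2 i hin
      · have e1 : ¬ i + 1 ≤ n := hin
        simp only [e1, if_false]
        by_cases hin2 : i ≤ n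
        · have : i = n := by omega
          subst this
          simp only [le_refl, if_true, hc0, show i + 1 - i = 0 + 1 by omega]
          exact hcl 0
        · simp only [hin2, if_false, show i + 1 - n = (i - n) + 1 by omega]
          exact hcl _)
    refine ⟨p, mem_iInter.2 fun k => ?_⟩
    have := mem_iInter.1 hp (n + k + 1)
    simp only [show ¬ n + k + 1 ≤ n by omega, if_false, show n + k + 1 - n = k + 1 by omega] at this
    exact hcl k (subset_closure this)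

theorem pseudocomplete_wijsman (X : Type) [MetricSpace X] (h : Pseudocomplete X) :
    Pseudocomplete (CL X) := by
  have := regular_wijsman (X := X)
  obtain ⟨𝔔, hQ1, hQ2⟩ := tail_piBases h
  refine ⟨quasiRegular_of_regular _,
    fun n => {V | ∃ 𝓗 J, Adm 𝓗 J ∧ 𝓗 ⊆ 𝔔 n ∧ V = BS 𝓗 J}, fun n => ⟨?_, ?_⟩, ?_⟩
  · rintro _ ⟨𝓗, J, hA, -, rfl⟩
    exact ⟨isOpen_BS hA, BS_nonempty hA⟩
  · rintro U hU ⟨A, hA⟩
    obtain ⟨𝓗, J, hadm, -, -, hsub⟩ := exists_BS (𝔚 := {W | IsOpen W}) (fun _ h => h)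
      (fun x O hO hx => ⟨O, hO, hx, subset_rfl⟩) hU hA
    have hex : ∀ W ∈ 𝓗, ∃ W' ∈ 𝔔 n, W' ⊆ W :=
      fun W hW => (hQ1 n).2 W (hadm.op W hW) (hadm.neW W hW)
    choose! s hs1 hs2 using hex
    refine ⟨BS (s '' 𝓗) J, ⟨s '' 𝓗, J, ⟨hadm.finH.image s, hadm.finJ, hadm.ne.image s, ?_, ?_, ?_⟩,
      ?_, rfl⟩, Subset.trans ?_ hsub⟩
    · rintro _ ⟨W, hW, rfl⟩
      exact ((hQ1 n).1 _ (hs1 W hW)).1
    · rintro _ ⟨W, hW, rfl⟩
      exact ((hQ1 n).1 _ (hs1 W hW)).2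
    · rintro _ ⟨W, hW, rfl⟩
      exact (hs2 W hW).trans (hadm.sub W hW)
    · rintro _ ⟨W, hW, rfl⟩
      exact hs1 W hW
    · intro B hB
      exact ⟨fun W hW => (hB.1 _ ⟨W, hW, rfl⟩).mono (inter_subset_inter_right _ (hs2 W hW)), hB.2⟩
  · intro V hV hcl
    choose 𝓗 J hadm hQ hVe using hV
    have hanti : Antitone V := antitone_nat_of_succ_le fun n => subset_closure.trans (hcl n)
    have hOJ : ∀ m n, m ≤ n → OJ (J n) ⊆ OJ (J m) := fun m n hmn =>
      OJ_mono (hadm n) (by rw [← hVe, ← hVe]; exact hanti hmn)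
    let C0 : Set X := ⋂ k, closure (OJ (J k))
    have hthread : ∀ n, ∀ W ∈ 𝓗 n, (C0 ∩ closure W).Nonempty := by
      intro n W hW
      have hstep : ∀ k (W : 𝓗 (n + k)), ∃ W' : 𝓗 (n + (k + 1)), closure W'.1 ⊆ W.1 := by
        intro k W
        obtain ⟨W', h1, h2⟩ := exists_hit_closure (hadm (n + k + 1)) (W := W.1) (fun A hA => by
          rw [← hVe] at hA
          have := hcl _ hA
          rw [hVe] at this
          exact this.1 W.1 W.2)
        exact ⟨⟨W', h1⟩, h2⟩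
      choose f hf using hstep
      let g : ∀ k, 𝓗 (n + k) := fun k => Nat.rec (motive := fun k => 𝓗 (n + k))
        ⟨W, hW⟩ (fun k W => f k W) k
      obtain ⟨p, hp⟩ := hQ2 n (fun k => (g k).1) (fun k => hQ _ (g k).2) (fun k => hf k (g k))
      refine ⟨p, mem_iInter.2 fun k => subset_closure ?_, subset_closure (mem_iInter.1 hp 0)⟩
      exact hOJ k (n + k) (by omega) ((hadm _).sub _ (g k).2 (mem_iInter.1 hp k))
    obtain ⟨W0, hW0⟩ := (hadm 0).ne
    let C : CL X := ⟨C0, isClosed_iInter fun _ => isClosed_closure,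
      (hthread 0 W0 hW0).mono inter_subset_left⟩
    refine ⟨C, mem_iInter.2 fun n => hcl n ?_⟩
    rw [hVe]
    exact key_closure (hadm _) C (iInter_subset _ (n + 1)) (hthread (n + 1))

theorem completelyMetrizable_of_subcompact (X : Type) [MetricSpace X] (h : Subcompact X) :
    TopologicalSpace.IsCompletelyMetrizableSpace X := by
  obtain ⟨-, 𝔅, hb, hw⟩ := h
  have hex : ∀ (x : X) (U : Set X), x ∈ U → IsOpen U → ∃ B ∈ 𝔅, x ∈ B ∧ closure B ⊆ U := by
    intro x U hx hU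
    obtain ⟨V, hV, hVc⟩ := (hasBasis_opens_closure x).mem_iff.mp (hU.mem_nhds hx)
    obtain ⟨B, hB, h1, h2⟩ := hb.exists_subset_of_mem_open hV.1 hV.2
    exact ⟨B, hB, h1, (closure_mono h2).trans hVc⟩
  choose! B hB1 hB2 hB3 using hex
  refine Pool.Agent.Helper63.Wijsman.completelyMetrizable_of_good ⟨isOpen_univ,
    ⟨⟨Set X, univ, id, fun _ x U => B x U, rfl, ?_, ?_⟩⟩⟩
  · intro s x U hx hU _
    exact ⟨hb.isOpen (hB1 x U hx hU), hB2 x U hx hU, subset_closure.trans (hB3 x U hx hU)⟩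
  · intro s x U _ hs
    have hc : ∀ n, closure (B (x n) (U n)) ⊆ U n := fun n => hB3 _ _ (hs n).1 (hs n).2.1
    have hd : ∀ n, U (n + 1) ⊆ B (x n) (U n) := fun n => by
      have := (hs (n + 1)).2.2.1
      rwa [(hs n).2.2.2] at this
    have hanti : Antitone fun n => B (x n) (U n) :=
      antitone_nat_of_succ_le fun n => (subset_closure.trans (hc (n + 1))).trans (hd n)
    obtain ⟨y, hy⟩ := hw (range fun n => B (x n) (U n))
      (by rintro _ ⟨n, rfl⟩; exact hB1 _ _ (hs n).1 (hs n).2.1) (range_nonempty _)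
      (by rintro _ ⟨n, rfl⟩; exact ⟨x n, hB2 _ _ (hs n).1 (hs n).2.1⟩)
      (by
        rintro _ ⟨m, rfl⟩ _ ⟨n, rfl⟩
        exact ⟨_, ⟨max m n, rfl⟩, subset_inter (hanti (le_max_left _ _)) (hanti (le_max_right _ _))⟩)
      (by rintro _ ⟨n, rfl⟩; exact ⟨_, ⟨n + 1, rfl⟩, (hc (n + 1)).trans (hd n)⟩)
    exact ⟨y, fun n => hc n (subset_closure (hy _ ⟨n, rfl⟩))⟩

theorem exists_chainBase_aux (X : Type) [MetricSpace X] [CompleteSpace X] :
    ∃ 𝔚 : Set (Set X), (∀ W ∈ 𝔚, IsOpen W) ∧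
      (∀ x O, IsOpen O → x ∈ O → ∃ W ∈ 𝔚, x ∈ W ∧ W ⊆ O) ∧
      ∀ W : ℕ → Set X, (∀ k, W k ∈ 𝔚) → StrictAnti W →
        ∃ p ∈ closure (W 0), ∀ O, IsOpen O → p ∈ O → ∃ k, W k ⊆ O := by
  have h : ∀ n : ℕ, ∃ v : X → Set X, (∀ a, IsOpen (v a)) ∧ ⋃ i, v i = univ ∧ LocallyFinite v ∧
      ∀ a, v a ⊆ ball a (1 / ((n : ℝ) + 1)) := fun n =>
    precise_refinement (fun a => ball a (1 / ((n : ℝ) + 1))) (fun _ => isOpen_ball)
      (eq_univ_of_forall fun a => mem_iUnion.2 ⟨a, mem_ball_self (by positivity)⟩)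
  choose v hvo hvc hvf hvs using h
  have hdist : ∀ n, ∀ W ∈ range (v n), ∀ x ∈ W, ∀ z ∈ W, dist z x < 2 * (1 / ((n : ℝ) + 1)) := by
    rintro n _ ⟨y, rfl⟩ x hx z hz
    have h1 := mem_ball.1 (hvs n y hx)
    have h2 := mem_ball.1 (hvs n y hz)
    have := dist_triangle_right z x y
    linarith
  refine ⟨{W | ∃ n, Maximal (· ∈ range (v n)) W}, ?_, ?_, ?_⟩
  · rintro _ ⟨n, ⟨y, rfl⟩, -⟩
    exact hvo n y
  · intro x O hO hx
    obtain ⟨ε, hε, hb⟩ := Metric.isOpen_iff.1 hO x hx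
    obtain ⟨N, hN⟩ := exists_nat_one_div_lt (half_pos hε)
    have : x ∈ ⋃ i, v N i := by rw [hvc]; trivial
    obtain ⟨y, hy⟩ := mem_iUnion.1 this
    obtain ⟨W, ⟨⟨z, hz, rfl⟩, hmax⟩⟩ := (((hvf N).point_finite x).image (v N)).exists_maximal
      ⟨_, y, hy, rfl⟩
    refine ⟨v N z, ⟨N, ⟨z, rfl⟩, ?_⟩, hz, fun q hq => hb ?_⟩
    · rintro _ ⟨w, rfl⟩ hle
      exact hmax ⟨w, hle hz, rfl⟩ hle
    · have := hdist N _ ⟨z, rfl⟩ x hz q hq
      rw [mem_ball]
      linarith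
  · intro W hW hanti
    choose lev hlev using hW
    have hinj : Function.Injective lev := by
      have key : ∀ k l, k < l → lev k ≠ lev l := by
        intro k l hkl e
        have h1 : W l < W k := hanti hkl
        exact h1.not_ge ((hlev l).2 (e ▸ (hlev k).1) h1.le)
      intro k l e
      rcases lt_trichotomy k l with h | h | h
      · exact absurd e (key k l h)
      · exact h
      · exact absurd e.symm (key l k h)
    have hsmall : ∀ ε > 0, ∃ k, ∀ x ∈ W k, ∀ z ∈ W k, dist z x < ε := by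
      intro ε hε
      obtain ⟨N, hN⟩ := exists_nat_one_div_lt (half_pos hε)
      obtain ⟨k, hk⟩ := (hinj.nat_tendsto_atTop.eventually (eventually_ge_atTop N)).exists
      refine ⟨k, fun x hx z hz => ?_⟩
      have h1 := hdist _ _ (hlev k).1 x hx z hz
      have h3 : 1 / ((lev k : ℝ) + 1) ≤ 1 / ((N : ℝ) + 1) := Nat.one_div_le_one_div hk
      linarith
    have hne : ∀ k, (W k).Nonempty := fun k => by
      obtain ⟨x, hx, -⟩ := exists_of_ssubset (hanti (Nat.lt_succ_self k))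
      exact ⟨x, hx⟩
    choose a ha using hne
    have hmem : ∀ k n, k ≤ n → a n ∈ W k := fun k n hkn => hanti.antitone hkn (ha n)
    have hc : CauchySeq a := by
      rw [Metric.cauchySeq_iff]
      intro ε hε
      obtain ⟨k, hk⟩ := hsmall ε hε
      exact ⟨k, fun m hm n hn => hk _ (hmem k n hn) _ (hmem k m hm)⟩
    obtain ⟨p, hp⟩ := cauchySeq_tendsto_of_complete hc
    refine ⟨p, mem_closure_of_tendsto hp (Eventually.of_forall fun n => hmem 0 n (Nat.zero_le n)),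
      fun O hO hpO => ?_⟩
    obtain ⟨ε, hε, hb⟩ := Metric.isOpen_iff.1 hO p hpO
    obtain ⟨k, hk⟩ := hsmall (ε / 2) (half_pos hε)
    obtain ⟨n, hn1, hn2⟩ := ((eventually_ge_atTop k).and
      (hp.eventually (ball_mem_nhds p (half_pos hε)))).exists
    refine ⟨k, fun z hz => hb ?_⟩
    have h1 := hk _ (hmem k n hn1) z hz
    have h2 := mem_ball.1 hn2
    have := dist_triangle z (a n) p
    rw [mem_ball]
    linarith

theorem exists_chainBase (X : Type) [TopologicalSpace X]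
    [TopologicalSpace.IsCompletelyMetrizableSpace X] :
    ∃ 𝔚 : Set (Set X), (∀ W ∈ 𝔚, IsOpen W) ∧
      (∀ x O, IsOpen O → x ∈ O → ∃ W ∈ 𝔚, x ∈ W ∧ W ⊆ O) ∧
      ∀ W : ℕ → Set X, (∀ k, W k ∈ 𝔚) → StrictAnti W →
        ∃ p ∈ closure (W 0), ∀ O, IsOpen O → p ∈ O → ∃ k, W k ⊆ O := by
  let := TopologicalSpace.upgradeIsCompletelyMetrizable X
  exact exists_chainBase_aux X

theorem subcompact_wijsman (X : Type) [MetricSpace X] (h : Subcompact X) :
    Subcompact (CL X) := by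
  have := completelyMetrizable_of_subcompact X h
  obtain ⟨𝔚, ho, hb, hch⟩ := exists_chainBase X
  refine ⟨regular_wijsman, {V | ∃ 𝓗 J, Adm 𝓗 J ∧ 𝓗 ⊆ 𝔚 ∧ V = BS 𝓗 J}, ?_, ?_⟩
  · refine TopologicalSpace.isTopologicalBasis_of_isOpen_of_nhds ?_ ?_
    · rintro _ ⟨𝓗, J, hA, -, rfl⟩
      exact isOpen_BS hA
    · intro A U hA hU
      obtain ⟨𝓗, J, h1, h2, h3, h4⟩ := exists_BS ho hb hU hA
      exact ⟨_, ⟨𝓗, J, h1, h2, rfl⟩, h3, h4⟩
  · intro ℱ hsub hne _ hdir hreg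
    have hrep : ∀ F ∈ ℱ, ∃ 𝓗 J, Adm 𝓗 J ∧ 𝓗 ⊆ 𝔚 ∧ F = BS 𝓗 J := hsub
    choose! 𝓗 J hadm h𝔚 hFe using hrep
    let C0 : Set X := ⋂ G ∈ ℱ, closure (OJ (J G))
    let Hs : Set (Set X) := {W | ∃ G ∈ ℱ, W ∈ 𝓗 G}
    have hin : ∀ W ∈ Hs, ∀ G ∈ ℱ, ∃ W' ∈ Hs, W' ⊆ W ∧ W'.Nonempty ∧ W' ⊆ OJ (J G) := by
      rintro W ⟨G0, hG0, hW⟩ G hG
      obtain ⟨K, hK, hKs⟩ := hdir G hG G0 hG0
      obtain ⟨W', h1, h2⟩ := exists_hit (hadm K hK) (W := W) (fun A hA => by
        rw [← hFe K hK] at hA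
        have := (hKs hA).2
        rw [hFe G0 hG0] at this
        exact this.1 W hW)
      refine ⟨W', ⟨K, hK, h1⟩, h2, (hadm K hK).neW _ h1, ((hadm K hK).sub _ h1).trans ?_⟩
      refine OJ_mono (𝓗 := 𝓗 G) (hadm K hK) ?_
      rw [← hFe K hK, ← hFe G hG]
      exact hKs.trans inter_subset_left
    have hthread : ∀ W ∈ Hs, (C0 ∩ closure W).Nonempty := by
      intro W hW
      by_cases hmin : ∃ W' ∈ Hs, W' ⊆ W ∧ ∀ W'' ∈ Hs, W'' ⊆ W' → W'' = W'
      · obtain ⟨W', h1, h2, h3⟩ := hmin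
        obtain ⟨G0, hG0, hW'⟩ := h1
        obtain ⟨p, hp⟩ := (hadm G0 hG0).neW _ hW'
        refine ⟨p, mem_iInter₂.2 fun G hG => subset_closure ?_, subset_closure (h2 hp)⟩
        obtain ⟨W'', k1, k2, -, k4⟩ := hin W' ⟨G0, hG0, hW'⟩ G hG
        rw [h3 W'' k1 k2] at k4
        exact k4 hp
      · push Not at hmin
        have hstep : ∀ S : {S : Set X // S ∈ Hs ∧ S ⊆ W}, ∃ S' : {S : Set X // S ∈ Hs ∧ S ⊆ W},
            S'.1 < S.1 := by
          rintro ⟨S, h1, h2⟩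
          obtain ⟨S', k1, k2, k3⟩ := hmin S h1 h2
          exact ⟨⟨S', k1, k2.trans h2⟩, lt_of_le_of_ne k2 k3⟩
        choose f hf using hstep
        let g : ℕ → {S : Set X // S ∈ Hs ∧ S ⊆ W} := fun k =>
          Nat.rec ⟨W, hW, subset_rfl⟩ (fun _ S => f S) k
        obtain ⟨p, hp, hpO⟩ := hch (fun k => (g k).1) (fun k => by
          obtain ⟨G, hG, hk⟩ := (g k).2.1
          exact h𝔚 G hG hk) (strictAnti_nat_of_succ_lt fun k => hf (g k))
        refine ⟨p, mem_iInter₂.2 fun G hG => ?_, hp⟩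
        rw [_root_.mem_closure_iff]
        intro O hO hpO'
        obtain ⟨k, hk⟩ := hpO O hO hpO'
        obtain ⟨W'', -, k2, ⟨z, hz⟩, k4⟩ := hin _ (g k).2.1 G hG
        exact ⟨z, hk (k2 hz), k4 hz⟩
    obtain ⟨F0, hF0⟩ := hne
    obtain ⟨W0, hW0⟩ := (hadm F0 hF0).ne
    let C : CL X := ⟨C0, isClosed_biInter fun _ _ => isClosed_closure,
      (hthread W0 ⟨F0, hF0, hW0⟩).mono inter_subset_left⟩
    refine ⟨C, fun F hF => ?_⟩
    obtain ⟨G, hG, hGF⟩ := hreg F hF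
    apply hGF
    rw [hFe G hG]
    exact key_closure (hadm G hG) C (biInter_subset_of_mem hG)
      (fun W hW => hthread W ⟨G, hG, hW⟩)

end Pool.Agent.H251Z.Wij
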