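import Mathlib

/-!
The Sigma-product in a large Cantor cube together with the constant function `true`:
every countable subset lies in a compact set, but the space is not a k-space.
-/

set_option autoImplicit false

namespace Pool.Agent.H251Z.Fan

open Set Topology Filter

lemma mk_finset_le {I : Type} (κ : Cardinal.{0}) (hκ : Cardinal.aleph0 ≤ κ) (S : Set I)
    (hS : Cardinal.mk S ≤ κ) : Cardinal.mk (Finset S) ≤ κ := by
  rcases finite_or_infinite S with h | h
  · exact le_trans (Cardinal.mk_le_aleph0_iff.mpr inferInstance) hκ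
  · rw [Cardinal.mk_finset_of_infinite]; exact hS

/-- One closing-off step. -/
def step {I : Type} (f : Finset I → Set I) (S : Set I) : Set I :=
  S ∪ ⋃ t : Finset S, f (t.map (Function.Embedding.subtype _))

lemma mk_step_le {I : Type} (κ : Cardinal.{0}) (hκ : Cardinal.aleph0 ≤ κ) (f : Finset I → Set I)
    (hf : ∀ s, Cardinal.mk (f s) ≤ κ) (S : Set I) (hS : Cardinal.mk S ≤ κ) :
    Cardinal.mk (step f S) ≤ κ := by
  unfold step
  refine le_trans (Cardinal.mk_union_le _ _) ?_
  have h1 : Cardinal.mk (⋃ t : Finset S, f (t.map (Function.Embedding.subtype _)) : Set I) ≤ κ := by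
    refine le_trans Cardinal.mk_iUnion_le_sum_mk ?_
    refine le_trans (Cardinal.sum_le_sum _ (fun _ => κ) (fun t => hf _)) ?_
    rw [Cardinal.sum_const']
    refine le_trans (mul_le_mul' (mk_finset_le κ hκ S hS) le_rfl) ?_
    rw [Cardinal.mul_eq_self hκ]
  refine le_trans (add_le_add hS h1) ?_
  rw [Cardinal.add_eq_self hκ]

lemma close_off {I : Type} (κ : Cardinal.{0}) (hκ : Cardinal.aleph0 ≤ κ) (B : Set I)
    (hB : Cardinal.mk B ≤ κ) (f : Finset I → Set I) (hf : ∀ s, Cardinal.mk (f s) ≤ κ) :
    ∃ A : Set I, B ⊆ A ∧ Cardinal.mk A ≤ κ ∧ ∀ s : Finset I, (↑s : Set I) ⊆ A → f s ⊆ A := by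
  classical
  let q : ℕ → Set I := fun n => (step f)^[n] B
  have hq0 : q 0 = B := rfl
  have hqs : ∀ n, q (n + 1) = step f (q n) := fun n => Function.iterate_succ_apply' _ _ _
  have hmono : Monotone q := monotone_nat_of_le_succ fun n => by
    rw [hqs]; exact subset_union_left
  have hcard : ∀ n, Cardinal.mk (q n) ≤ κ := by
    intro n
    induction n with
    | zero => exact hB
    | succ n ih => rw [hqs]; exact mk_step_le κ hκ f hf _ ih
  refine ⟨⋃ n, q n, hq0 ▸ subset_iUnion q 0, ?_, ?_⟩
  · refine le_trans Cardinal.mk_iUnion_le_sum_mk ?_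
    refine le_trans (Cardinal.sum_le_sum _ (fun _ => κ) hcard) ?_
    rw [Cardinal.sum_const', Cardinal.mk_nat]
    refine le_trans (mul_le_mul' hκ le_rfl) ?_
    rw [Cardinal.mul_eq_self hκ]
  · intro s hs
    have : ∃ n, (↑s : Set I) ⊆ q n := by
      clear hf
      induction s using Finset.induction_on with
      | empty => exact ⟨0, by simp⟩
      | insert a s _ ih =>
        obtain ⟨n, hn⟩ := ih (fun x hx => hs (by simp [Finset.mem_coe.mp hx]))
        obtain ⟨m, hm⟩ := mem_iUnion.mp (hs (show a ∈ ((insert a s : Finset I) : Set I) by simp))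
        refine ⟨max n m, ?_⟩
        intro x hx
        rw [Finset.coe_insert] at hx
        rcases hx with rfl | hx
        · exact hmono (le_max_right _ _) hm
        · exact hmono (le_max_left _ _) (hn hx)
    obtain ⟨n, hn⟩ := this
    refine subset_trans ?_ (subset_iUnion q (n + 1))
    rw [hqs]
    refine subset_trans ?_ subset_union_right
    have e : (s.subtype (· ∈ q n)).map (Function.Embedding.subtype _) = s :=
      Finset.subtype_map_of_mem (fun x hx => hn hx)
    intro x hx
    exact mem_iUnion.mpr ⟨s.subtype (· ∈ q n), by rw [e]; exact hx⟩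

lemma mem_closure_of {I : Type} (z : I → Bool) (S : Set (I → Bool))
    (h : ∀ t : Finset I, ∃ y ∈ S, ∀ i ∈ t, y i = z i) : z ∈ closure S := by
  rw [mem_closure_iff]
  intro O hO hz
  obtain ⟨t, u, hu, hsub⟩ := isOpen_pi_iff.mp hO z hz
  obtain ⟨y, hyS, hy⟩ := h t
  exact ⟨y, hsub (fun i hi => by rw [hy i hi]; exact (hu i hi).2), hyS⟩

/-- The index set. -/
abbrev I : Type := Set (Set ℕ)

/-- The space. -/
abbrev X : Type := {x : I → Bool // {i | x i = true}.Countable ∨ ∀ i, x i = true}

lemma omega_bounded (u : ℕ → X) : ∃ K : Set X, IsCompact K ∧ ∀ n, u n ∈ K := by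
  let A : Set I := ⋃ n, ⋃ (_ : {i | (u n).1 i = true}.Countable), {i | (u n).1 i = true}
  have hA : A.Countable := countable_iUnion fun n => countable_iUnion fun h => h
  refine ⟨{x | (∀ i, x.1 i = true) ∨ ∀ i, i ∉ A → x.1 i = false}, ?_, ?_⟩
  · rw [Subtype.isCompact_iff]
    have : ((↑) '' {x : X | (∀ i, x.1 i = true) ∨ ∀ i, i ∉ A → x.1 i = false} : Set (I → Bool))
        = {x | ∀ i, x i = true} ∪ {x | ∀ i, i ∉ A → x i = false} := by
      ext x
      constructor
      · rintro ⟨y, hy, rfl⟩; exact hy
      · rintro (h | h)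
        · exact ⟨⟨x, Or.inr h⟩, Or.inl h, rfl⟩
        · refine ⟨⟨x, Or.inl (hA.mono ?_)⟩, Or.inr h, rfl⟩
          intro i hi
          by_contra hiA
          have h1 := h i hiA
          have h2 : x i = true := hi
          rw [h1] at h2
          exact Bool.noConfusion h2
    rw [this]
    refine IsClosed.isCompact (IsClosed.union ?_ ?_)
    · simp only [setOf_forall]
      exact isClosed_iInter fun i => isClosed_eq (continuous_apply i) continuous_const
    · simp only [setOf_forall]
      exact isClosed_iInter fun i => isClosed_iInter fun _ =>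
        isClosed_eq (continuous_apply i) continuous_const
  · intro n
    rcases (u n).2 with h | h
    · refine Or.inr fun i hi => ?_
      by_contra hne
      exact hi (mem_iUnion.mpr ⟨n, mem_iUnion.mpr ⟨h, by simpa using hne⟩⟩)
    · exact Or.inl h

lemma no_fan (ι : Type) (F : ι → Set X)
    (hF : ∀ K : Set X, IsCompact K → {i | (F i ∩ K).Nonempty}.Finite) (x : X) :
    ∃ U ∈ 𝓝 x, {i | (F i ∩ U).Nonempty}.Finite := by
  refine ⟨univ, univ_mem, ?_⟩
  by_contra hinf
  have hinf' : {i | (F i ∩ univ).Nonempty}.Infinite := hinf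
  let e := hinf'.natEmbedding
  have hne : ∀ n, ∃ y, y ∈ F (e n) := fun n => by
    obtain ⟨y, hy, -⟩ := (e n).2
    exact ⟨y, hy⟩
  choose u hu using hne
  obtain ⟨K, hK, huK⟩ := omega_bounded u
  have hfin := hF K hK
  have hinj : Function.Injective (fun n => (e n : ι)) :=
    Subtype.val_injective.comp e.injective
  exact (infinite_range_of_injective hinj) (hfin.subset (by
    rintro _ ⟨n, rfl⟩
    exact ⟨u n, hu n, huK n⟩))

lemma mk_I : Cardinal.continuum < Cardinal.mk I := by
  have : Cardinal.mk I = 2 ^ Cardinal.continuum := by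
    simp [I, Cardinal.mk_set]
  rw [this]
  exact Cardinal.cantor _

lemma univ_not_countable : ¬ (univ : Set I).Countable := by
  intro h
  have h1 : Cardinal.mk I ≤ Cardinal.aleph0 := by
    rw [← Cardinal.mk_univ]; exact Cardinal.le_aleph0_iff_set_countable.mpr h
  exact absurd (lt_of_lt_of_le mk_I (h1.trans Cardinal.aleph0_le_continuum)) (lt_irrefl _)

/-- The Sigma-product inside the space. -/
def C : Set X := {x | {i | x.1 i = true}.Countable}

lemma C_not_closed : ¬ IsClosed C := by
  classical
  intro h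
  have h1 : (⟨fun _ => true, Or.inr fun _ => rfl⟩ : X) ∈ closure C := by
    rw [closure_subtype]
    refine mem_closure_of _ _ fun t => ?_
    have hc : {i : I | decide (i ∈ t) = true}.Countable :=
      t.countable_toSet.mono (fun i hi => by simpa using hi)
    refine ⟨fun i => decide (i ∈ t), ⟨⟨_, Or.inl hc⟩, hc, rfl⟩, fun i hi => by simpa using hi⟩
  rw [h.closure_eq] at h1
  apply univ_not_countable
  have h2 : {i : I | true = true}.Countable := h1
  simpa using h2

lemma C_inter_closed (K : Set X) (hK : IsCompact K) : IsClosed (C ∩ K) := by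
  classical
  rw [← closure_subset_iff_isClosed]
  intro x hx
  have hxK : x ∈ K := hK.isClosed.closure_subset (closure_mono inter_subset_right hx)
  refine ⟨?_, hxK⟩
  by_contra hxC
  have hx1 : ∀ i, x.1 i = true := x.2.resolve_left hxC
  have hy : ∀ s : Finset I, ∃ y : X, y ∈ C ∩ K ∧ ∀ i ∈ s, y.1 i = true := by
    intro s
    have hO : IsOpen {y : X | ∀ i ∈ s, y.1 i = true} := by
      have : {y : X | ∀ i ∈ s, y.1 i = true} = ⋂ i ∈ s, (fun y : X => y.1 i) ⁻¹' {true} := by
        ext y; simp
      rw [this]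
      exact isOpen_biInter_finset fun i _ =>
        (isOpen_discrete _).preimage ((continuous_apply i).comp continuous_subtype_val)
    obtain ⟨y, hy1, hy2⟩ := mem_closure_iff.mp hx _ hO (fun i _ => hx1 i)
    exact ⟨y, hy2, hy1⟩
  choose y hyC hys using hy
  let B : Set I := range (fun a : Set ℕ => ({a} : Set (Set ℕ)))
  have hBc : Cardinal.mk B = Cardinal.continuum := by
    rw [Cardinal.mk_range_eq _ singleton_injective]
    simp [Cardinal.mk_set]
  obtain ⟨A, hBA, hA, hcl⟩ := close_off Cardinal.continuum Cardinal.aleph0_le_continuum B hBc.le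
    (fun s => {i | (y s).1 i = true})
    (fun s => (Cardinal.le_aleph0_iff_set_countable.mpr (hyC s).1).trans
      Cardinal.aleph0_le_continuum)
  have hz : (fun i => decide (i ∈ A)) ∈ closure ((↑) '' K : Set (I → Bool)) := by
    refine mem_closure_of _ _ fun t => ?_
    refine ⟨(y (t.filter (· ∈ A))).1, ⟨_, (hyC _).2, rfl⟩, fun i hi => ?_⟩
    by_cases hiA : i ∈ A
    · rw [hys _ i (Finset.mem_filter.mpr ⟨hi, hiA⟩)]; simp [hiA]
    · have : ¬ (y (t.filter (· ∈ A))).1 i = true := fun h =>
        hiA (hcl _ (fun j hj => (Finset.mem_filter.mp hj).2) h)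
      simp [hiA, this]
  rw [(hK.image continuous_subtype_val).isClosed.closure_eq] at hz
  obtain ⟨w, -, hw⟩ := hz
  rcases w.2 with h | h
  · rw [hw] at h
    have hAc : A.Countable := h.mono (fun i hi => by simpa using hi)
    have h1 : Cardinal.mk B ≤ Cardinal.aleph0 :=
      Cardinal.le_aleph0_iff_set_countable.mpr (hAc.mono hBA)
    rw [hBc] at h1
    exact absurd (lt_of_lt_of_le Cardinal.aleph0_lt_continuum h1) (lt_irrefl _)
  · rw [hw] at h
    have hAu : A = univ := eq_univ_of_forall fun i => by simpa using h i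
    rw [hAu, Cardinal.mk_univ] at hA
    exact absurd (lt_of_lt_of_le mk_I hA) (lt_irrefl _)

lemma C_kclosed (K : Set X) (hK : IsCompact K) : IsClosed ((↑) ⁻¹' C : Set K) := by
  have : ((↑) ⁻¹' C : Set K) = (↑) ⁻¹' (C ∩ K) := by
    ext x; simp
  rw [this]
  exact (C_inter_closed K hK).preimage continuous_subtype_val

end Pool.Agent.H251Z.Fan
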